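import Pool.Agent.Y670.RD.Clr
import Pool.Agent.W271.Three.ThreeT

/-!
# Arithmetic of the twisted specialisations
-/

set_option autoImplicit false

namespace Pool.Agent.Y670.RD

open Finset
open Pool.Agent.H925R.Szpiro (D IsMin condS)
open Pool.Agent.W271.Three (min_no)

/-- the part of `m` prime to `S` -/
def gp (S : Finset ℕ) (m : ℕ) : ℕ := ∏ p ∈ m.primeFactors \ S, p ^ m.factorization p

/-- what remains of the part of `m` prime to `S` after removing each prime once -/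
def excess (S : Finset ℕ) (m : ℕ) : ℕ := ∏ p ∈ m.primeFactors \ S, p ^ (m.factorization p - 1)

theorem gp_eq (S : Finset ℕ) (m : ℕ) : gp S m = (∏ p ∈ m.primeFactors \ S, p) * excess S m := by
  unfold gp excess
  rw [← prod_mul_distrib]
  refine prod_congr rfl fun p hp => ?_
  have hp' : p ∈ m.primeFactors := (mem_sdiff.mp hp).1
  have h1 : 1 ≤ m.factorization p := by
    rw [Nat.mem_primeFactors] at hp'
    exact (hp'.1.dvd_iff_one_le_factorization hp'.2.2).mp hp'.2.1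
  rw [← pow_succ']
  congr 1
  omega

theorem excess_pos (S : Finset ℕ) (m : ℕ) : 1 ≤ excess S m := by
  unfold excess
  refine Nat.one_le_iff_ne_zero.mpr (prod_ne_zero_iff.mpr fun p hp => ?_)
  exact pow_ne_zero _ (Nat.prime_of_mem_primeFactors (mem_sdiff.mp hp).1).ne_zero

theorem excess_mono {S T : Finset ℕ} (h : ∀ p ∈ T, p.Prime → p ∈ S) (m : ℕ) :
    excess S m ≤ excess T m := by
  unfold excess
  refine prod_le_prod_of_subset_of_one_le' (fun p hp => ?_) fun p hp _ => ?_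
  · rw [mem_sdiff] at hp ⊢
    exact ⟨hp.1, fun hT => hp.2 (h p hT (Nat.prime_of_mem_primeFactors hp.1))⟩
  exact Nat.one_le_pow _ _ (Nat.prime_of_mem_primeFactors (mem_sdiff.mp hp).1).pos

/-- the link with `p`-adic norms -/
theorem norm_gp (S : Finset ℕ) (hS : ∀ p ∈ S, p.Prime) (m : ℤ) (hm : m ≠ 0) :
    |(m : ℝ)| * ∏ p ∈ S, (padicNorm p (m : ℚ) : ℝ) = (gp S m.natAbs : ℝ) := by
  set k := m.natAbs with hk
  have hk0 : k ≠ 0 := Int.natAbs_ne_zero.mpr hm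
  have h1 : |(m : ℝ)| = (k : ℝ) := by rw [hk, Nat.cast_natAbs, Int.cast_abs]
  have h2 : ∏ p ∈ S, (padicNorm p (m : ℚ) : ℝ) = (∏ p ∈ S, (p : ℝ) ^ k.factorization p)⁻¹ := by
    rw [← prod_inv_distrib]
    refine prod_congr rfl fun p hp => ?_
    rw [padicNorm.eq_zpow_of_nonzero (by exact_mod_cast hm), padicValRat.of_int]
    push_cast
    rw [zpow_neg, zpow_natCast, Nat.factorization_def _ (hS p hp)]
    rfl
  have h3 : ∏ p ∈ S, (p : ℝ) ^ k.factorization p =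
      ∏ p ∈ k.primeFactors ∩ S, (p : ℝ) ^ k.factorization p := by
    symm
    refine prod_subset inter_subset_right fun p hp hp' => ?_
    have : k.factorization p = 0 := by
      rw [Nat.factorization_eq_zero_iff]
      by_contra hcon
      push Not at hcon
      apply hp'
      rw [mem_inter, Nat.mem_primeFactors]
      exact ⟨⟨hcon.1, hcon.2.1, hcon.2.2⟩, hp⟩
    rw [this, pow_zero]
  have h4 : (k : ℝ) = (∏ p ∈ k.primeFactors ∩ S, (p : ℝ) ^ k.factorization p) * (gp S k : ℝ) := by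
    unfold gp
    push_cast
    rw [prod_inter_mul_prod_sdiff]
    have := Nat.prod_factorization_pow_eq_self hk0
    rw [Nat.prod_factorization_eq_prod_primeFactors] at this
    conv_lhs => rw [← this]
    push_cast
    rfl
  have h5 : (∏ p ∈ k.primeFactors ∩ S, (p : ℝ) ^ k.factorization p) ≠ 0 := by
    refine prod_ne_zero_iff.mpr fun p hp => ?_
    have := (Nat.prime_of_mem_primeFactors (mem_inter.mp hp).1).ne_zero
    exact pow_ne_zero _ (by exact_mod_cast this)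
  rw [h1, h2, h3]
  conv_lhs => rw [h4]
  field_simp

/-- the data of a twisted specialisation -/
structure Dat (a1 b1 A B N G lc m1 m2 : ℤ) (Q : ℕ) (s t : ℤ) : Prop where
  hmin : IsMin a1 b1
  hN : N ≠ 0
  hQ : 0 < Q
  hNQ : IsCoprime N (Q : ℤ)
  ea : a1 * (Q : ℤ) ^ 2 = 27 * N ^ 2 * A
  eb : b1 * (Q : ℤ) ^ 3 = 54 * N ^ 3 * B
  hst : IsCoprime s t
  hG : G ≠ 0
  hmod : ∃ k : ℕ, t ∣ G - lc * s ^ k
  hDG : ∃ (e : ℕ) (X : ℤ), m1 * t ^ e * (A ^ 3 - B ^ 2) = G * X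
  hbez : ∃ (e : ℕ) (X Y Z : ℤ), m2 * t ^ e * G ^ 2 = X * (A * G) + Y * B + Z * G ^ 3

variable {a1 b1 A B N G lc m1 m2 : ℤ} {Q : ℕ} {s t : ℤ}

theorem Dat.disc (h : Dat a1 b1 A B N G lc m1 m2 Q s t) :
    D a1 b1 * (Q : ℤ) ^ 6 = 78732 * N ^ 6 * (A ^ 3 - B ^ 2) := by
  unfold D
  calc (4 * a1 ^ 3 - 27 * b1 ^ 2) * (Q : ℤ) ^ 6
      = 4 * (a1 * (Q : ℤ) ^ 2) ^ 3 - 27 * (b1 * (Q : ℤ) ^ 3) ^ 2 := by ring
    _ = _ := by rw [h.ea, h.eb]; ring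

theorem Dat.Na (h : Dat a1 b1 A B N G lc m1 m2 Q s t) : N ^ 2 ∣ a1 := by
  have h1 : N ^ 2 ∣ a1 * (Q : ℤ) ^ 2 := by
    rw [h.ea]
    exact ⟨27 * A, by ring⟩
  exact (h.hNQ.pow (m := 2) (n := 2)).dvd_of_dvd_mul_right h1

theorem Dat.Nb (h : Dat a1 b1 A B N G lc m1 m2 Q s t) : N ^ 3 ∣ b1 := by
  have h1 : N ^ 3 ∣ b1 * (Q : ℤ) ^ 3 := by
    rw [h.eb]
    exact ⟨54 * B, by ring⟩
  exact (h.hNQ.pow (m := 3) (n := 3)).dvd_of_dvd_mul_right h1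

theorem Dat.sqf (h : Dat a1 b1 A B N G lc m1 m2 Q s t) : Squarefree N.natAbs := by
  rw [Nat.squarefree_iff_prime_squarefree]
  intro p hp hd
  have h1 : (p : ℤ) ^ 2 ∣ N := by
    rw [← Int.natCast_dvd] at hd
    push_cast at hd
    rwa [sq]
  refine min_no a1 b1 h.hmin p hp.two_le ?_ ?_
  · calc (p : ℤ) ^ 4 = ((p : ℤ) ^ 2) ^ 2 := by ring
      _ ∣ N ^ 2 := pow_dvd_pow_of_dvd h1 2
      _ ∣ a1 := h.Na
  · calc (p : ℤ) ^ 6 = ((p : ℤ) ^ 2) ^ 3 := by ring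
      _ ∣ N ^ 3 := pow_dvd_pow_of_dvd h1 3
      _ ∣ b1 := h.Nb

/-- primes `≥ 5` of `N` are additive -/
theorem Dat.addN (h : Dat a1 b1 A B N G lc m1 m2 Q s t) {p : ℕ} (hp : (p : ℤ) ∣ N) :
    (p : ℤ) ∣ a1 ∧ (p : ℤ) ∣ D a1 b1 := by
  have h1 : (p : ℤ) ∣ a1 := (hp.trans (dvd_pow_self N (by norm_num))).trans h.Na
  have h2 : (p : ℤ) ∣ b1 := (hp.trans (dvd_pow_self N (by norm_num))).trans h.Nb
  refine ⟨h1, ?_⟩
  unfold D
  exact dvd_sub ((h1.trans (dvd_pow_self a1 (by norm_num))).mul_left _)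
    ((h2.trans (dvd_pow_self b1 (by norm_num))).mul_left _)

/-- good primes dividing `G` divide `Q` or the discriminant -/
theorem Dat.good (h : Dat a1 b1 A B N G lc m1 m2 Q s t) {p : ℕ} (hp : p.Prime) (h5 : 5 ≤ p)
    (hlc : ¬ (p : ℤ) ∣ lc) (hm1 : ¬ (p : ℤ) ∣ m1) (hm2 : ¬ (p : ℤ) ∣ m2) (hpG : (p : ℤ) ∣ G)
    (hpD : ¬ (p : ℤ) ∣ D a1 b1) : p ∣ Q ∧ (p : ℤ) ^ 2 ∣ G := by
  have hpr : Prime (p : ℤ) := Nat.prime_iff_prime_int.mp hp
  have hpt : ¬ (p : ℤ) ∣ t := by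
    intro ht
    obtain ⟨k, hk⟩ := h.hmod
    have h1 : (p : ℤ) ∣ lc * s ^ k := by
      have : lc * s ^ k = G - (G - lc * s ^ k) := by ring
      rw [this]
      exact dvd_sub hpG (ht.trans hk)
    rcases hpr.dvd_or_dvd h1 with h2 | h2
    · exact hlc h2
    · have h3 := hpr.dvd_of_dvd_pow h2
      exact hpr.not_isUnit (h.hst.isUnit_of_dvd' h3 ht)
  have hpte : ∀ e, ¬ (p : ℤ) ∣ t ^ e := fun e he => hpt (hpr.dvd_of_dvd_pow he)
  -- `p ∣ A ^ 3 - B ^ 2`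
  have h1 : (p : ℤ) ∣ A ^ 3 - B ^ 2 := by
    obtain ⟨e, X, he⟩ := h.hDG
    have h2 : (p : ℤ) ∣ m1 * t ^ e * (A ^ 3 - B ^ 2) := by
      rw [he]
      exact hpG.mul_right _
    rcases hpr.dvd_or_dvd h2 with h3 | h3
    · rcases hpr.dvd_or_dvd h3 with h4 | h4
      · exact absurd h4 hm1
      · exact absurd h4 (hpte e)
    · exact h3
  have h2 : (p : ℤ) ∣ D a1 b1 * (Q : ℤ) ^ 6 := by
    rw [h.disc]
    exact h1.mul_left _
  have h3 : (p : ℤ) ∣ (Q : ℤ) := by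
    rcases hpr.dvd_or_dvd h2 with h4 | h4
    · exact absurd h4 hpD
    · exact hpr.dvd_of_dvd_pow h4
  refine ⟨by exact_mod_cast h3, ?_⟩
  have hpN : ¬ (p : ℤ) ∣ N := fun h4 => hpr.not_isUnit (h.hNQ.isUnit_of_dvd' h4 h3)
  have hcop : ∀ k : ℤ, (¬ (p : ℤ) ∣ k) → ∀ j : ℕ, IsCoprime ((p : ℤ) ^ j) k := fun k hk j =>
    (hpr.irreducible.coprime_iff_not_dvd.mpr hk).pow_left
  have hp3 : ¬ (p : ℤ) ∣ 3 := by
    intro h4
    have := Int.le_of_dvd (by norm_num) h4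
    omega
  have hp2 : ¬ (p : ℤ) ∣ 2 := by
    intro h4
    have := Int.le_of_dvd (by norm_num) h4
    omega
  have hp27 : ¬ (p : ℤ) ∣ 27 * N ^ 2 := by
    intro h4
    rcases hpr.dvd_or_dvd h4 with h5 | h5
    · have : (p : ℤ) ∣ 3 ^ 3 := by norm_num; exact h5
      exact hp3 (hpr.dvd_of_dvd_pow this)
    · exact hpN (hpr.dvd_of_dvd_pow h5)
  have hp54 : ¬ (p : ℤ) ∣ 54 * N ^ 3 := by
    intro h4
    rcases hpr.dvd_or_dvd h4 with h5 | h5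
    · have : (p : ℤ) ∣ 2 * 3 ^ 3 := by norm_num; exact h5
      rcases hpr.dvd_or_dvd this with h6 | h6
      · exact hp2 h6
      · exact hp3 (hpr.dvd_of_dvd_pow h6)
    · exact hpN (hpr.dvd_of_dvd_pow h5)
  have hA : (p : ℤ) ^ 2 ∣ A := by
    refine (hcop _ hp27 2).dvd_of_dvd_mul_left ?_
    rw [← h.ea]
    exact (pow_dvd_pow_of_dvd h3 2).mul_left _
  have hB : (p : ℤ) ^ 3 ∣ B := by
    refine (hcop _ hp54 3).dvd_of_dvd_mul_left ?_
    rw [← h.eb]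
    exact (pow_dvd_pow_of_dvd h3 3).mul_left _
  obtain ⟨e, X, Y, Z, he⟩ := h.hbez
  have h4 : (p : ℤ) ^ 3 ∣ m2 * t ^ e * G ^ 2 := by
    rw [he]
    refine dvd_add (dvd_add ?_ (hB.mul_left _)) ?_
    · refine Dvd.dvd.mul_left ?_ _
      calc (p : ℤ) ^ 3 = (p : ℤ) ^ 2 * p := by ring
        _ ∣ A * G := mul_dvd_mul hA hpG
    · exact (pow_dvd_pow_of_dvd hpG 3).mul_left _
  have h5 : ¬ (p : ℤ) ∣ m2 * t ^ e := by
    intro h6
    rcases hpr.dvd_or_dvd h6 with h7 | h7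
    · exact hm2 h7
    · exact hpte e h7
  have h6 : (p : ℤ) ^ 3 ∣ G ^ 2 := (hcop _ h5 3).dvd_of_dvd_mul_left h4
  obtain ⟨G1, hG1⟩ := hpG
  rw [hG1] at h6 ⊢
  have h7 : (p : ℤ) ^ 2 * p ∣ (p : ℤ) ^ 2 * G1 ^ 2 := by
    calc (p : ℤ) ^ 2 * p = (p : ℤ) ^ 3 := by ring
      _ ∣ ((p : ℤ) * G1) ^ 2 := h6
      _ = _ := by ring
  have h8 := (mul_dvd_mul_iff_left (pow_ne_zero 2 hpr.ne_zero)).mp h7
  have h9 := hpr.dvd_of_dvd_pow h8
  calc (p : ℤ) ^ 2 = p * p := by ring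
    _ ∣ p * G1 := mul_dvd_mul_left _ h9

end Pool.Agent.Y670.RD
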