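import Pool.Agent.Y670.RD.Frm
import Pool.Agent.W180.RR.Plc

/-!
# Ridout's theorem for binary forms
-/

set_option autoImplicit false

namespace Pool.Agent.Y670.RD

open Polynomial Finset
open Pool.Agent.W180.RR Pool.Agent.W180.OP Pool.Agent.W180.TP

/-- at most one root is close -/
theorem sep_roots {K : Type} [Field K] (f : AbsoluteValue K ℝ) (R : Finset K) (hR : R.Nonempty) :
    ∃ Γ : ℝ, 1 ≤ Γ ∧ ∀ s t : K, ∃ ξ ∈ R, ∀ η ∈ R, η ≠ ξ →
      max (f s) (f t) ≤ Γ * f (s - η * t) := by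
  classical
  set Γ : ℝ := 1 + ∑ ξ ∈ R, ∑ η ∈ R, 2 * (1 + f η) / f (η - ξ) with hΓ
  have hnn : ∀ ξ η : K, 0 ≤ 2 * (1 + f η) / f (η - ξ) := fun ξ η =>
    div_nonneg (by have := f.nonneg η; linarith) (f.nonneg _)
  have hterm : ∀ ξ ∈ R, ∀ η ∈ R, 1 + 2 * (1 + f η) / f (η - ξ) ≤ Γ := by
    intro ξ hξ η hη
    have h1 := single_le_sum (f := fun η => 2 * (1 + f η) / f (η - ξ)) (fun η _ => hnn ξ η) hη
    have h2 := single_le_sum (f := fun ξ => ∑ η ∈ R, 2 * (1 + f η) / f (η - ξ))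
      (fun ξ _ => sum_nonneg fun η _ => hnn ξ η) hξ
    have h3 := h1.trans h2
    linarith
  refine ⟨Γ, ?_, fun s t => ?_⟩
  · have : 0 ≤ ∑ ξ ∈ R, ∑ η ∈ R, 2 * (1 + f η) / f (η - ξ) :=
      sum_nonneg fun ξ _ => sum_nonneg fun η _ => hnn ξ η
    linarith
  · obtain ⟨ξ, hξ, hmin⟩ := R.exists_min_image (fun ξ => f (s - ξ * t)) hR
    refine ⟨ξ, hξ, fun η hη hne => ?_⟩
    have hηξ : 0 < f (η - ξ) := f.pos (sub_ne_zero.mpr hne)
    set x := f (s - η * t) with hx
    have hx0 : 0 ≤ x := f.nonneg _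
    have h1 : f (η - ξ) * f t ≤ 2 * x := by
      rw [← map_mul]
      have e : (η - ξ) * t = (s - ξ * t) + (-(s - η * t)) := by ring
      rw [e]
      have h2 := f.add_le (s - ξ * t) (-(s - η * t))
      rw [f.map_neg] at h2
      have h3 := hmin η hη
      linarith
    have h2 : f t ≤ 2 * x / f (η - ξ) := by
      rw [le_div_iff₀ hηξ]
      linarith
    have h3 : f s ≤ x + f η * f t := by
      have e : s = (s - η * t) + η * t := by ring
      calc f s = f ((s - η * t) + η * t) := by rw [← e]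
        _ ≤ x + f (η * t) := f.add_le _ _
        _ = _ := by rw [map_mul]
    have hη0 := f.nonneg η
    have hle := hterm ξ hξ η hη
    have h4 : f t ≤ (2 * (1 + f η) / f (η - ξ)) * x := by
      refine h2.trans ?_
      have : 2 * x / f (η - ξ) = (2 / f (η - ξ)) * x := by ring
      rw [this]
      refine mul_le_mul_of_nonneg_right ?_ hx0
      exact div_le_div_of_nonneg_right (by linarith) hηξ.le
    have h5 : f η * f t ≤ (2 * (1 + f η) / f (η - ξ)) * x := by
      have h6 : f η * f t ≤ f η * (2 * x / f (η - ξ)) := mul_le_mul_of_nonneg_left h2 hη0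
      refine h6.trans ?_
      have : f η * (2 * x / f (η - ξ)) = (2 * f η / f (η - ξ)) * x := by ring
      rw [this]
      refine mul_le_mul_of_nonneg_right ?_ hx0
      exact div_le_div_of_nonneg_right (by linarith) hηξ.le
    apply max_le
    · calc f s ≤ x + f η * f t := h3
        _ ≤ (1 + 2 * (1 + f η) / f (η - ξ)) * x := by linarith
        _ ≤ Γ * x := mul_le_mul_of_nonneg_right hle hx0
    · calc f t ≤ (2 * (1 + f η) / f (η - ξ)) * x := h4
        _ ≤ (1 + 2 * (1 + f η) / f (η - ξ)) * x := by linarith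
        _ ≤ Γ * x := mul_le_mul_of_nonneg_right hle hx0

/-- a lower bound for a product of linear factors -/
theorem prod_lower {K : Type} [Field K] (f : AbsoluteValue K ℝ) (R : Finset K) (hR : R.Nonempty) :
    ∃ c : ℝ, 0 < c ∧ ∀ s t : K, ∃ ξ ∈ R,
      c * (max (f s) (f t)) ^ (R.card - 1) * f (s - ξ * t) ≤ ∏ η ∈ R, f (s - η * t) := by
  classical
  obtain ⟨Γ, hΓ, h⟩ := sep_roots f R hR
  have hΓ0 : 0 < Γ := by linarith
  refine ⟨(Γ⁻¹) ^ (R.card - 1), by positivity, fun s t => ?_⟩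
  obtain ⟨ξ, hξ, h1⟩ := h s t
  refine ⟨ξ, hξ, ?_⟩
  rw [← mul_prod_erase R _ hξ, mul_comm (f (s - ξ * t))]
  refine mul_le_mul_of_nonneg_right ?_ (f.nonneg _)
  rw [← mul_pow, ← card_erase_of_mem hξ, ← prod_const]
  have hm : 0 ≤ max (f s) (f t) := le_max_of_le_left (f.nonneg _)
  refine prod_le_prod (fun η _ => by positivity) fun η hη => ?_
  obtain ⟨h2, h3⟩ := mem_erase.mp hη
  have h4 := h1 η h3 h2
  rw [inv_mul_le_iff₀ hΓ0]
  exact h4

/-- factorisation of the form -/
theorem fv_fac {K : Type} [Field K] [CharZero K] (g : ℤ[X])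
    (hs : (g.map (Int.castRingHom K)).Splits) (hn : (g.map (Int.castRingHom K)).roots.Nodup) :
    ∃ R : Finset K, R.card = g.natDegree ∧ ∀ s t : ℤ, t ≠ 0 →
      (fv g.natDegree g s t : K) = (g.leadingCoeff : K) * ∏ ξ ∈ R, ((s : K) - ξ * t) := by
  classical
  have hinj : Function.Injective (Int.castRingHom K) := Int.cast_injective
  set P := g.map (Int.castRingHom K) with hP
  have hdeg : P.natDegree = g.natDegree := natDegree_map_eq_of_injective hinj g
  have hlc : P.leadingCoeff = (g.leadingCoeff : K) := by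
    rw [hP, leadingCoeff_map_of_injective hinj]
    rfl
  have hval : P.roots.toFinset.val = P.roots := by
    rw [Multiset.toFinset_val, Multiset.dedup_eq_self.mpr hn]
  have hcard : P.roots.toFinset.card = g.natDegree := by
    rw [← hdeg, hs.natDegree_eq_card_roots, Finset.card, hval]
  refine ⟨P.roots.toFinset, hcard, fun s t ht => ?_⟩
  have ht' : (t : K) ≠ 0 := by exact_mod_cast ht
  rw [fv_eq le_rfl ht']
  have h1 : aeval ((s : K) / t) g = P.eval ((s : K) / t) := by
    rw [hP, eval_map, aeval_def]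
    rfl
  have h2 : P.eval ((s : K) / t) = (g.leadingCoeff : K) * ∏ ξ ∈ P.roots.toFinset, ((s : K) / t - ξ) := by
    rw [hs.eval_eq_prod_roots, hlc]
    congr 1
    rw [Finset.prod, hval]
  rw [h1, h2]
  have h3 : ∏ ξ ∈ P.roots.toFinset, ((s : K) - ξ * t) =
      (t : K) ^ g.natDegree * ∏ ξ ∈ P.roots.toFinset, ((s : K) / t - ξ) := by
    rw [← hcard, ← prod_const, ← prod_mul_distrib]
    refine prod_congr rfl fun ξ _ => ?_
    field_simp
  rw [h3]
  ring

/-- the vector `(s, t)` -/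
def vec (s t : ℤ) : Fin 2 → ℤ := ![s, t]

theorem vec_prim {s t : ℤ} (h : IsCoprime s t) : Prim (vec s t) := by
  intro g hg
  obtain ⟨x, y, hxy⟩ := h
  have h0 : g ∣ s := hg 0
  have h1 : g ∣ t := hg 1
  apply isUnit_of_dvd_one
  rw [← hxy]
  exact dvd_add (h0.mul_left _) (h1.mul_left _)

theorem vec_hgt (s t : ℤ) : hgt (vec s t) = max |(s : ℝ)| |(t : ℝ)| := by
  unfold hgt
  apply le_antisymm
  · refine ciSup_le fun j => ?_
    fin_cases j
    · exact le_max_left _ _
    · exact le_max_right _ _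
  · exact max_le (le_hgt (vec s t) 0) (le_hgt (vec s t) 1)

theorem vec_nrm {K : Type} [Field K] (f : AbsoluteValue K ℝ) (s t : ℤ) :
    nrm f (ck K (vec s t)) = max (f (s : K)) (f (t : K)) := by
  unfold nrm
  apply le_antisymm
  · refine ciSup_le fun j => ?_
    fin_cases j
    · exact le_max_left _ _
    · exact le_max_right _ _
  · exact max_le (le_nrm f (ck K (vec s t)) 0) (le_nrm f (ck K (vec s t)) 1)

/-- the distance of `(s, t)` to `(ξ, 1)` -/
theorem vec_del {K : Type} [Field K] (f : AbsoluteValue K ℝ) (s t : ℤ) (ξ : K)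
    (hx : ck K (vec s t) ≠ 0) :
    del f (![ξ, 1] : Fin 2 → K) (ck K (vec s t)) * max (f (s : K)) (f (t : K)) ≤
      f ((s : K) - ξ * t) := by
  have hn : 0 < nrm f (ck K (vec s t)) := nrm_pos f hx
  rw [← vec_nrm f s t, ← le_div_iff₀ hn]
  unfold del
  refine ciSup_le fun j => ?_
  unfold rho
  rw [pow_one]
  refine div_le_div_of_nonneg_right ?_ hn.le
  rw [aeval_eqn]
  have h0 : ck K (vec s t) 0 = (s : K) := rfl
  have h1 : ck K (vec s t) 1 = (t : K) := rfl
  obtain ⟨j1, j2⟩ := j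
  have hnn := f.nonneg ((s : K) - ξ * t)
  fin_cases j1 <;> fin_cases j2
  · simp only [Fin.zero_eta, sub_self, map_zero]
    exact hnn
  · simp only [Fin.zero_eta, Fin.mk_one, h0, h1, Matrix.cons_val_zero, Matrix.cons_val_one,
      Algebra.algebraMap_self, RingHom.id_apply]
    apply le_of_eq
    congr 1
    ring
  · simp only [Fin.zero_eta, Fin.mk_one, h0, h1, Matrix.cons_val_zero, Matrix.cons_val_one,
      Algebra.algebraMap_self, RingHom.id_apply]
    rw [← f.map_neg]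
    apply le_of_eq
    congr 1
    ring
  · simp only [Fin.mk_one, sub_self, map_zero]
    exact hnn

/-- Ridout's theorem for the values of a squarefree form -/
theorem rid_form (g : ℤ[X]) (hg : Squarefree (g.map (Int.castRingHom ℚ))) (hd : 1 ≤ g.natDegree)
    (T : Finset ℕ) (hT : ∀ p ∈ T, p.Prime) (ε : ℝ) (hε : 0 < ε) :
    ∃ c : ℝ, 0 < c ∧ ∀ s t : ℤ, IsCoprime s t → t ≠ 0 → fv g.natDegree g s t ≠ 0 →
      c * (max |(s : ℝ)| |(t : ℝ)|) ^ ((g.natDegree : ℝ) - 2 - ε) ≤
        |(fv g.natDegree g s t : ℝ)| * ∏ p ∈ T, (padicNorm p (fv g.natDegree g s t : ℚ) : ℝ) := by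
  classical
  have hinj : Function.Injective (Int.castRingHom ℚ) := Int.cast_injective
  set P := g.map (Int.castRingHom ℚ) with hP
  have hg0 : g ≠ 0 := by
    rintro rfl
    simp at hd
  let K : Type := P.SplittingField
  have hNF : NumberField K := { to_charZero := inferInstance, to_finiteDimensional := inferInstance }
  have hmap : g.map (Int.castRingHom K) = P.map (algebraMap ℚ K) := by
    have h1 : (Int.castRingHom K) = (algebraMap ℚ K).comp (Int.castRingHom ℚ) :=
      RingHom.ext_int _ _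
    rw [h1]
    exact (Polynomial.map_map (Int.castRingHom ℚ) (algebraMap ℚ K) g).symm
  have hsplit : (g.map (Int.castRingHom K)).Splits := by
    rw [hmap]; exact SplittingField.splits P
  have hsep : P.Separable := PerfectField.separable_iff_squarefree.mpr hg
  have hnod : (g.map (Int.castRingHom K)).roots.Nodup := by
    rw [hmap]; exact nodup_roots hsep.map
  obtain ⟨R, hRc, hfac⟩ := fv_fac (K := K) g hsplit hnod
  have hRne : R.Nonempty := by
    rw [← card_pos, hRc]; omega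
  obtain ⟨Y, w, v, κ, hκ, hY0, hYs, hYi⟩ := exists_sys K T hT
  -- the targets
  set T2 : Finset (Fin 2 → K) := R.image (fun ξ => (![ξ, 1] : Fin 2 → K)) with hT2
  have hT2ne : ∀ y ∈ T2, y ≠ 0 := by
    intro y hy h0
    rw [hT2, mem_image] at hy
    obtain ⟨ξ, -, rfl⟩ := hy
    have := congrFun h0 1
    simp at this
  obtain ⟨C, hC0, hC⟩ := proj_all Y T2 hT2ne ε hε
  obtain ⟨c0, hc0, h0⟩ := prod_lower Y.f0 R hRne
  have hi := fun i : T => prod_lower (Y.fs i) R hRne
  choose ci hci hi using hi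
  have hlc : (g.leadingCoeff : K) ≠ 0 := by
    exact_mod_cast leadingCoeff_ne_zero.mpr hg0
  have hA0 : 0 < Y.f0 (g.leadingCoeff : K) := Y.f0.pos hlc
  have hAi : ∀ i, 0 < Y.fs i (g.leadingCoeff : K) := fun i => (Y.fs i).pos hlc
  refine ⟨(Y.f0 (g.leadingCoeff : K) * c0) * (∏ i, (Y.fs i (g.leadingCoeff : K) * ci i)) *
    Real.exp (-C), ?_, fun s t hst ht hG => ?_⟩
  · have : 0 < ∏ i, (Y.fs i (g.leadingCoeff : K) * ci i) :=
      prod_pos fun i _ => mul_pos (hAi i) (hci i)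
    positivity
  set G := fv g.natDegree g s t with hGdef
  set M : ℝ := max |(s : ℝ)| |(t : ℝ)| with hM
  have hM1 : 1 ≤ M := by
    have : (1 : ℝ) ≤ |(t : ℝ)| := by
      have := Int.one_le_abs ht
      exact_mod_cast this
    exact this.trans (le_max_right _ _)
  have hM0 : 0 < M := by linarith
  have hprim := vec_prim hst
  have hxne : ck K (vec s t) ≠ 0 := ck_ne hprim.ne
  -- the close roots
  obtain ⟨ξ0, hξ0, h0'⟩ := h0 (s : K) (t : K)
  have hi' := fun i : T => hi i (s : K) (t : K)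
  choose ξ hξ hi' using hi'
  have hmax0 : max (Y.f0 (s : K)) (Y.f0 (t : K)) = M := by
    rw [Y.f0i, Y.f0i]
  have hmaxi : ∀ i, max (Y.fs i (s : K)) (Y.fs i (t : K)) = 1 := by
    intro i
    rw [← vec_nrm (Y.fs i) s t]
    exact nrm_fs Y hprim i
  rw [hmax0] at h0'
  -- values at the form
  have hGK : (G : K) = (g.leadingCoeff : K) * ∏ ξ ∈ R, ((s : K) - ξ * t) := hfac s t ht
  have hv0 : |(G : ℝ)| = Y.f0 (g.leadingCoeff : K) * ∏ ξ ∈ R, Y.f0 ((s : K) - ξ * t) := by
    rw [← Y.f0i, hGK, map_mul, map_prod]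
  have hvi : ∀ i : T, (padicNorm i.1 (G : ℚ) : ℝ) =
      Y.fs i (g.leadingCoeff : K) * ∏ ξ ∈ R, Y.fs i ((s : K) - ξ * t) := by
    intro i
    rw [← hYi i G, hGK, map_mul, map_prod]
  -- not a root
  have hnot : ∀ z ∈ T2, ¬ ∃ c : K, ck K (vec s t) = c • z := by
    rintro z hz ⟨c, hc⟩
    rw [hT2, mem_image] at hz
    obtain ⟨η, hη, rfl⟩ := hz
    have e0 : (s : K) = c * η := by
      have := congrFun hc 0
      simpa [ck, vec] using this
    have e1 : (t : K) = c := by
      have := congrFun hc 1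
      simpa [ck, vec] using this
    apply hG
    have : (G : K) = 0 := by
      rw [hGK, prod_eq_zero hη (by rw [e0, e1]; ring), mul_zero]
    exact_mod_cast this
  have hmain := hC ![ξ0, 1] (fun i => ![ξ i, 1]) (mem_image_of_mem _ hξ0)
    (fun i => mem_image_of_mem _ (hξ i)) (vec s t) hprim hnot
  rw [vec_hgt, ← hM] at hmain
  have hdp : ∀ (f : AbsoluteValue K ℝ) (η : K), η ∈ R → 0 < del f (![η, 1] : Fin 2 → K) (ck K (vec s t)) := by
    intro f η hη
    refine del_pos f (hT2ne _ (mem_image_of_mem _ hη)) hxne ?_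
    rintro ⟨c, hc⟩
    apply hnot _ (mem_image_of_mem _ hη)
    refine ⟨c, ?_⟩
    rw [hc]
    rfl
  set d0 := del Y.f0 (![ξ0, 1] : Fin 2 → K) (ck K (vec s t)) with hd0
  set di : T → ℝ := fun i => del (Y.fs i) (![ξ i, 1] : Fin 2 → K) (ck K (vec s t)) with hdi
  have hd0p : 0 < d0 := hdp _ _ hξ0
  have hdip : ∀ i, 0 < di i := fun i => hdp _ _ (hξ i)
  have hprodp : 0 < ∏ i, di i := prod_pos fun i _ => hdip i
  have hlog : - ((2 + ε) * Real.log M) - C ≤ Real.log (d0 * ∏ i, di i) := by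
    rw [Real.log_mul hd0p.ne' hprodp.ne', Real.log_prod fun i _ => (hdip i).ne']
    rw [sum_neg_distrib] at hmain
    linarith
  have hdd : Real.exp (-C) * M ^ (-(2 + ε)) ≤ d0 * ∏ i, di i := by
    rw [← Real.exp_log (mul_pos hd0p hprodp), Real.rpow_def_of_pos hM0, ← Real.exp_add]
    apply Real.exp_le_exp.mpr
    linarith
  -- lower bounds for the linear forms
  have hl0 : d0 * M ≤ Y.f0 ((s : K) - ξ0 * t) := by
    have := vec_del Y.f0 s t ξ0 hxne
    rwa [hmax0] at this
  have hli : ∀ i, di i ≤ Y.fs i ((s : K) - ξ i * t) := by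
    intro i
    have := vec_del (Y.fs i) s t (ξ i) hxne
    rwa [hmaxi, mul_one] at this
  -- assembling
  have hprodT : ∏ p ∈ T, (padicNorm p (G : ℚ) : ℝ) = ∏ i : T, (padicNorm i.1 (G : ℚ) : ℝ) :=
    (prod_coe_sort T (fun p => (padicNorm p (G : ℚ) : ℝ))).symm
  have b0 : Y.f0 (g.leadingCoeff : K) * c0 * (M ^ (R.card - 1) * (d0 * M)) ≤ |(G : ℝ)| := by
    rw [hv0, mul_assoc]
    refine mul_le_mul_of_nonneg_left ?_ hA0.le
    refine le_trans ?_ h0'
    rw [mul_assoc]
    refine mul_le_mul_of_nonneg_left ?_ hc0.le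
    exact mul_le_mul_of_nonneg_left hl0 (by positivity)
  have bi : ∀ i : T, Y.fs i (g.leadingCoeff : K) * ci i * di i ≤ (padicNorm i.1 (G : ℚ) : ℝ) := by
    intro i
    rw [hvi i, mul_assoc]
    refine mul_le_mul_of_nonneg_left ?_ (hAi i).le
    refine le_trans ?_ (hi' i)
    rw [hmaxi, one_pow, mul_one]
    exact mul_le_mul_of_nonneg_left (hli i) (hci i).le
  have bprod : (∏ i : T, (Y.fs i (g.leadingCoeff : K) * ci i)) * ∏ i, di i ≤
      ∏ i : T, (padicNorm i.1 (G : ℚ) : ℝ) := by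
    rw [← prod_mul_distrib]
    exact prod_le_prod (fun i _ => by have := hAi i; have := hci i; have := hdip i; positivity)
      fun i _ => bi i
  have hMpow : M ^ ((g.natDegree : ℝ) - 2 - ε) = M ^ (R.card - 1) * M * M ^ (-(2 + ε)) := by
    have e1 : M ^ (R.card - 1) * M = M ^ (g.natDegree : ℝ) := by
      rw [← pow_succ, Real.rpow_natCast, hRc]
      congr 1
      omega
    rw [e1, ← Real.rpow_add hM0]
    congr 1
    ring
  rw [hprodT]
  have hpp : 0 < ∏ i : T, (Y.fs i (g.leadingCoeff : K) * ci i) :=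
    prod_pos fun i _ => mul_pos (hAi i) (hci i)
  set PP := ∏ i : T, (Y.fs i (g.leadingCoeff : K) * ci i) with hPP
  calc Y.f0 (g.leadingCoeff : K) * c0 * PP * Real.exp (-C) * M ^ ((g.natDegree : ℝ) - 2 - ε)
      = (Y.f0 (g.leadingCoeff : K) * c0 * PP * (M ^ (R.card - 1) * M)) *
          (Real.exp (-C) * M ^ (-(2 + ε))) := by rw [hMpow]; ring
    _ ≤ (Y.f0 (g.leadingCoeff : K) * c0 * PP * (M ^ (R.card - 1) * M)) * (d0 * ∏ i, di i) :=
        mul_le_mul_of_nonneg_left hdd (by positivity)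
    _ = (Y.f0 (g.leadingCoeff : K) * c0 * (M ^ (R.card - 1) * (d0 * M))) * (PP * ∏ i, di i) := by
        ring
    _ ≤ |(G : ℝ)| * ∏ i : T, (padicNorm i.1 (G : ℚ) : ℝ) :=
        mul_le_mul b0 bprod (by positivity) (abs_nonneg _)

/-- Ridout's theorem for the values of a squarefree form, with the point at infinity -/
theorem rid_form' (g : ℤ[X]) (hg : Squarefree (g.map (Int.castRingHom ℚ))) (hd : 1 ≤ g.natDegree)
    (T : Finset ℕ) (hT : ∀ p ∈ T, p.Prime) (ε : ℝ) (hε : 0 < ε) :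
    ∃ c : ℝ, 0 < c ∧ ∀ s t : ℤ, IsCoprime s t → fv g.natDegree g s t ≠ 0 →
      c * (max |(s : ℝ)| |(t : ℝ)|) ^ ((g.natDegree : ℝ) - 2 - ε) ≤
        |(fv g.natDegree g s t : ℝ)| * ∏ p ∈ T, (padicNorm p (fv g.natDegree g s t : ℚ) : ℝ) := by
  obtain ⟨c, hc, h⟩ := rid_form g hg hd T hT ε hε
  have hg0 : g ≠ 0 := by
    rintro rfl
    simp at hd
  have hlc : g.leadingCoeff ≠ 0 := leadingCoeff_ne_zero.mpr hg0
  set ρ : ℝ := |(g.leadingCoeff : ℝ)| * ∏ p ∈ T, (padicNorm p (g.leadingCoeff : ℚ) : ℝ) with hρ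
  have hρ0 : 0 < ρ := by
    have h1 : 0 < |(g.leadingCoeff : ℝ)| := abs_pos.mpr (by exact_mod_cast hlc)
    have h2 : 0 < ∏ p ∈ T, (padicNorm p (g.leadingCoeff : ℚ) : ℝ) := by
      refine prod_pos fun p hp => ?_
      have : Fact p.Prime := ⟨hT p hp⟩
      have h3 : padicNorm p (g.leadingCoeff : ℚ) ≠ 0 := padicNorm.nonzero (by exact_mod_cast hlc)
      have h4 : 0 ≤ padicNorm p (g.leadingCoeff : ℚ) := padicNorm.nonneg _
      have h5 : 0 < padicNorm p (g.leadingCoeff : ℚ) := lt_of_le_of_ne h4 (Ne.symm h3)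
      exact_mod_cast h5
    positivity
  refine ⟨min c ρ, lt_min hc hρ0, fun s t hst hG => ?_⟩
  rcases eq_or_ne t 0 with ht | ht
  · subst ht
    have hs : IsUnit s := isCoprime_zero_right.mp hst
    have hval : fv g.natDegree g s 0 = g.leadingCoeff * s ^ g.natDegree := fv_zero _ _ _
    have hsa : |(s : ℝ)| = 1 := by
      rcases Int.isUnit_iff.mp hs with rfl | rfl <;> simp
    have hpow : s ^ g.natDegree = 1 ∨ s ^ g.natDegree = -1 := Int.isUnit_iff.mp (hs.pow _)
    have hM : max |(s : ℝ)| |((0 : ℤ) : ℝ)| = 1 := by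
      rw [hsa]; simp
    rw [hM, Real.one_rpow, mul_one, hval]
    refine (min_le_right _ _).trans (le_of_eq ?_)
    rw [hρ]
    rcases hpow with h1 | h1
    · rw [h1, mul_one]
    · rw [h1, mul_neg, mul_one]
      push_cast
      rw [abs_neg]
      congr 1
      refine prod_congr rfl fun p _ => ?_
      rw [padicNorm.neg]
  · refine le_trans ?_ (h s t hst ht hG)
    refine mul_le_mul_of_nonneg_right (min_le_left _ _) ?_
    exact Real.rpow_nonneg (le_max_of_le_left (abs_nonneg _)) _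

end Pool.Agent.Y670.RD
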