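import Pool.Agent.Y670.RD.Pro
import Pool.Agent.Y670.RD.Rid
import Pool.Agent.W270.TM.Glob

/-!
# The modified Szpiro inequality in one-parameter families
-/

set_option autoImplicit false

namespace Pool.Agent.Y670.RD

open Finset Polynomial
open Pool.Agent.H925R.Szpiro (D IsMin condS)
open Pool.Agent.H39R3 (GMin condW cond_le condW_pos)

/-- the hypotheses on the family -/
structure Fam (n : ℕ) (a b g : ℤ[X]) : Prop where
  hn : 1 ≤ n
  ha : a.natDegree ≤ 2 * n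
  hb : b.natDegree ≤ 3 * n
  hD : (a ^ 3 - b ^ 2).natDegree = 6 * n
  hiso : ∀ x y : ℤ, C x * a ^ 3 = C y * b ^ 2 → x = 0 ∧ y = 0
  hmin : ∀ π : ℚ[X], Irreducible π → ¬ (π ^ 2 ∣ toQ a ∧ π ^ 3 ∣ toQ b)
  hsq : Squarefree (toQ g)
  hgD : toQ g ∣ toQ (a ^ 3 - b ^ 2)
  hDg : ∃ k : ℕ, toQ (a ^ 3 - b ^ 2) ∣ (toQ g) ^ k

theorem Fam.dav {n : ℕ} {a b g : ℤ[X]} (h : Fam n a b g) : n + 2 ≤ g.natDegree := by
  have hinj : Function.Injective (Int.castRingHom ℚ) := Int.cast_injective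
  have hdeg : ∀ f : ℤ[X], (toQ f).natDegree = f.natDegree := fun f =>
    natDegree_map_eq_of_injective hinj f
  have hsub : toQ (a ^ 3 - b ^ 2) = (toQ a) ^ 3 - (toQ b) ^ 2 := by
    unfold toQ
    rw [Polynomial.map_sub, Polynomial.map_pow, Polynomial.map_pow]
  rw [← hdeg g]
  refine davenport n h.hn (toQ a) (toQ b) (toQ g) ?_ ?_ ?_ ?_ h.hmin ?_ ?_
  · rw [hdeg]; exact h.ha
  · rw [hdeg]; exact h.hb
  · rw [← hsub, hdeg]; exact h.hD
  · intro x y hxy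
    have h1 : C (x.num * y.den) * a ^ 3 = C (y.num * x.den) * b ^ 2 := by
      apply toQ_inj
      unfold toQ at *
      rw [Polynomial.map_mul, Polynomial.map_mul, Polynomial.map_pow, Polynomial.map_pow, map_C,
        map_C]
      have hx : (x.num : ℚ) = x * x.den := by rw [Rat.mul_den_eq_num]
      have hy : (y.num : ℚ) = y * y.den := by rw [Rat.mul_den_eq_num]
      have e1 : (Int.castRingHom ℚ) (x.num * y.den) = x * (x.den * y.den) := by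
        simp only [eq_intCast]
        push_cast
        rw [hx]; ring
      have e2 : (Int.castRingHom ℚ) (y.num * x.den) = y * (x.den * y.den) := by
        simp only [eq_intCast]
        push_cast
        rw [hy]; ring
      rw [e1, e2]
      simp only [C_mul]
      linear_combination (C (x.den : ℚ) * C (y.den : ℚ)) * hxy
    obtain ⟨h2, h3⟩ := h.hiso _ _ h1
    have hxd : (x.den : ℤ) ≠ 0 := by exact_mod_cast x.den_nz
    have hyd : (y.den : ℤ) ≠ 0 := by exact_mod_cast y.den_nz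
    exact ⟨Rat.num_eq_zero.mp ((mul_eq_zero.mp h2).resolve_right hyd),
      Rat.num_eq_zero.mp ((mul_eq_zero.mp h3).resolve_right hxd)⟩
  · rw [← hsub]; exact h.hgD
  · rw [← hsub]; exact h.hDg

/-- the data of a twisted specialisation -/
theorem Fam.dat {n : ℕ} {a b g : ℤ[X]} (h : Fam n a b g) :
    ∃ m1 m2 : ℤ, m1 ≠ 0 ∧ m2 ≠ 0 ∧ ∀ W : WeierstrassCurve ℤ, GMin W →
      ∀ (s t : ℤ) (u : ℚ), IsCoprime s t → (W.c₄ : ℚ) = u ^ 2 * (fv (2 * n) a s t : ℤ) →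
      (W.c₆ : ℚ) = u ^ 3 * (fv (3 * n) b s t : ℤ) →
      ∃ (a1 b1 N : ℤ) (Q : ℕ), Dat a1 b1 (fv (2 * n) a s t) (fv (3 * n) b s t) N
        (fv g.natDegree g s t) g.leadingCoeff m1 m2 Q s t ∧ condS a1 b1 ≤ condW W ∧
        |(W.c₄ : ℝ)| ≤ 48 * |(a1 : ℝ)| ∧ |(W.c₆ : ℝ)| ≤ 864 * |(b1 : ℝ)| := by
  obtain ⟨m1, q, hm1, hq⟩ := clr_dvd h.hgD
  obtain ⟨m2, x, y, w, hm2, hbz⟩ := bezoutZ a b g h.hsq h.hmin
  obtain ⟨e1, he1⟩ := prod_val (n := 6 * n) (γ := g.natDegree) h.hD.le le_rfl hq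
  obtain ⟨e2, he2⟩ := bez_val h.ha h.hb le_rfl hbz
  refine ⟨m1, m2, hm1, hm2, fun W hW s t u hst hc4 hc6 => ?_⟩
  obtain ⟨a1, b1, r, s0, hmin, ⟨μ, hμ, ha1, hb1⟩, hs0, hsr, hr6, e4, e6, e12, -⟩ :=
    Pool.Agent.W270.TM.intsR W hW
  set A := fv (2 * n) a s t with hA
  set B := fv (3 * n) b s t with hB
  set G := fv g.natDegree g s t with hG
  have hDq : t ≠ 0 → fv (6 * n) (a ^ 3 - b ^ 2) s t = A ^ 3 - B ^ 2 := by
    intro ht
    have hAq : (A : ℚ) = (t : ℚ) ^ (2 * n) * aeval ((s : ℚ) / t) a := fvq h.ha ht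
    have hBq : (B : ℚ) = (t : ℚ) ^ (3 * n) * aeval ((s : ℚ) / t) b := fvq h.hb ht
    have h1 : ((fv (6 * n) (a ^ 3 - b ^ 2) s t : ℤ) : ℚ) = ((A ^ 3 - B ^ 2 : ℤ) : ℚ) := by
      rw [fvq h.hD.le ht]
      push_cast
      rw [hAq, hBq, map_sub, map_pow, map_pow]
      have e1 : (t : ℚ) ^ (6 * n) = ((t : ℚ) ^ (2 * n)) ^ 3 := by rw [← pow_mul]; congr 1; ring
      have e2 : (t : ℚ) ^ (6 * n) = ((t : ℚ) ^ (3 * n)) ^ 2 := by rw [← pow_mul]; congr 1; ring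
      rw [mul_sub]
      conv_lhs => rw [e1]
      have e3 : ((t : ℚ) ^ (2 * n)) ^ 3 = ((t : ℚ) ^ (3 * n)) ^ 2 := by rw [← e1, ← e2]
      linear_combination (aeval ((s : ℚ) / t) b) ^ 2 * (-e3)
    exact_mod_cast h1
  -- the twist
  set v : ℚ := μ ^ 2 * u with hv
  have hva : (a1 : ℚ) = 27 * v ^ 2 * A := by
    rw [ha1, hv]
    push_cast
    rw [hc4]
    ring
  have hvb : (b1 : ℚ) = 54 * v ^ 3 * B := by
    rw [hb1, hv]
    push_cast
    rw [hc6]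
    ring
  have hv0 : v ≠ 0 := by
    intro h0
    apply hmin.1
    have h1 : (a1 : ℚ) = 0 := by rw [hva, h0]; ring
    have h2 : (b1 : ℚ) = 0 := by rw [hvb, h0]; ring
    have h3 : a1 = 0 := by exact_mod_cast h1
    have h4 : b1 = 0 := by exact_mod_cast h2
    unfold D
    rw [h3, h4]; ring
  have hN0 : v.num ≠ 0 := Rat.num_ne_zero.mpr hv0
  have hQ0 : 0 < v.den := v.den_pos
  have hvN : v * v.den = v.num := Rat.mul_den_eq_num v
  have hNQ : IsCoprime v.num (v.den : ℤ) := by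
    rw [Int.isCoprime_iff_nat_coprime]
    simpa using v.reduced
  have hea : a1 * (v.den : ℤ) ^ 2 = 27 * v.num ^ 2 * A := by
    have h1 : ((a1 * (v.den : ℤ) ^ 2 : ℤ) : ℚ) = ((27 * v.num ^ 2 * A : ℤ) : ℚ) := by
      push_cast
      rw [hva, ← hvN]; ring
    exact_mod_cast h1
  have heb : b1 * (v.den : ℤ) ^ 3 = 54 * v.num ^ 3 * B := by
    have h1 : ((b1 * (v.den : ℤ) ^ 3 : ℤ) : ℚ) = ((54 * v.num ^ 3 * B : ℤ) : ℚ) := by
      push_cast
      rw [hvb, ← hvN]; ring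
    exact_mod_cast h1
  have hX : ∃ (e : ℕ) (X1 : ℤ), m1 * t ^ e * (A ^ 3 - B ^ 2) = G * X1 := by
    rcases eq_or_ne t 0 with ht | ht
    · exact ⟨1, 0, by rw [ht]; ring⟩
    · obtain ⟨X1, hX1⟩ := he1 s t ht
      rw [hDq ht] at hX1
      exact ⟨e1, X1, hX1⟩
  have hbz' : ∃ (e : ℕ) (X Y Z : ℤ), m2 * t ^ e * G ^ 2 = X * (A * G) + Y * B + Z * G ^ 3 := by
    rcases eq_or_ne t 0 with ht | ht
    · exact ⟨1, 0, 0, 0, by rw [ht]; ring⟩
    · obtain ⟨X, Y, Z, hXYZ⟩ := he2 s t ht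
      exact ⟨e2, X, Y, Z, hXYZ⟩
  have hdisc : D a1 b1 * (v.den : ℤ) ^ 6 = 78732 * v.num ^ 6 * (A ^ 3 - B ^ 2) := by
    unfold D
    calc (4 * a1 ^ 3 - 27 * b1 ^ 2) * (v.den : ℤ) ^ 6
        = 4 * (a1 * (v.den : ℤ) ^ 2) ^ 3 - 27 * (b1 * (v.den : ℤ) ^ 3) ^ 2 := by ring
      _ = _ := by rw [hea, heb]; ring
  have hG0 : G ≠ 0 := by
    intro h0
    rcases eq_or_ne t 0 with ht | ht
    · have hg0 : g ≠ 0 := by
        rintro rfl
        have := h.dav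
        simp at this
      rw [hG, ht, fv_zero] at h0
      have hs : IsUnit s := by rw [ht] at hst; exact isCoprime_zero_right.mp hst
      exact mul_ne_zero (leadingCoeff_ne_zero.mpr hg0) (hs.pow _).ne_zero h0
    obtain ⟨X1, hX1⟩ := he1 s t ht
    rw [hDq ht] at hX1
    have hv' : G * X1 = 0 := by rw [h0, zero_mul]
    have h1 : m1 * t ^ e1 * (A ^ 3 - B ^ 2) = 0 := by rw [hX1]; exact hv'
    have h2 : A ^ 3 - B ^ 2 = 0 :=
      (mul_eq_zero.mp h1).resolve_left (mul_ne_zero hm1 (pow_ne_zero _ ht))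
    rw [h2, mul_zero] at hdisc
    have hQz : (v.den : ℤ) ≠ 0 := by exact_mod_cast hQ0.ne'
    exact hmin.1 ((mul_eq_zero.mp hdisc).resolve_right (pow_ne_zero _ hQz))
  refine ⟨a1, b1, v.num, v.den, ⟨hmin, hN0, hQ0, hNQ, hea, heb, hst, hG0, ⟨g.natDegree, ?_⟩,
    hX, hbz'⟩, ?_, ?_, ?_⟩
  · exact fv_mod g.natDegree g s t
  · exact cond_le W a1 b1 r s0 hr6 e4 e12 hW.1
  · -- `|c₄| ≤ 48 |a1|`
    have hsR : (0 : ℝ) < s0 := by exact_mod_cast hs0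
    have hrs : (s0 : ℝ) ≤ r := by exact_mod_cast hsr
    have h1 : 48 * (a1 : ℝ) * (s0 : ℝ) ^ 4 = (r : ℝ) ^ 4 * (W.c₄ : ℝ) := by exact_mod_cast e4
    have h2 : 48 * |(a1 : ℝ)| * (s0 : ℝ) ^ 4 = (r : ℝ) ^ 4 * |(W.c₄ : ℝ)| := by
      have := congrArg abs h1
      rwa [abs_mul, abs_mul, abs_mul, abs_of_pos (by norm_num : (0 : ℝ) < 48),
        abs_of_nonneg (by positivity : (0 : ℝ) ≤ (s0 : ℝ) ^ 4),
        abs_of_nonneg (by positivity : (0 : ℝ) ≤ (r : ℝ) ^ 4)] at this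
    have h3 : (s0 : ℝ) ^ 4 ≤ (r : ℝ) ^ 4 := pow_le_pow_left₀ hsR.le hrs 4
    have h4 : (s0 : ℝ) ^ 4 * |(W.c₄ : ℝ)| ≤ (s0 : ℝ) ^ 4 * (48 * |(a1 : ℝ)|) := by
      calc (s0 : ℝ) ^ 4 * |(W.c₄ : ℝ)| ≤ (r : ℝ) ^ 4 * |(W.c₄ : ℝ)| :=
            mul_le_mul_of_nonneg_right h3 (abs_nonneg _)
        _ = (s0 : ℝ) ^ 4 * (48 * |(a1 : ℝ)|) := by rw [← h2]; ring
    exact le_of_mul_le_mul_left h4 (by positivity)
  · have hsR : (0 : ℝ) < s0 := by exact_mod_cast hs0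
    have hrs : (s0 : ℝ) ≤ r := by exact_mod_cast hsr
    have h1 : 864 * (b1 : ℝ) * (s0 : ℝ) ^ 6 = (r : ℝ) ^ 6 * (W.c₆ : ℝ) := by exact_mod_cast e6
    have h2 : 864 * |(b1 : ℝ)| * (s0 : ℝ) ^ 6 = (r : ℝ) ^ 6 * |(W.c₆ : ℝ)| := by
      have := congrArg abs h1
      rwa [abs_mul, abs_mul, abs_mul, abs_of_pos (by norm_num : (0 : ℝ) < 864),
        abs_of_nonneg (by positivity : (0 : ℝ) ≤ (s0 : ℝ) ^ 6),
        abs_of_nonneg (by positivity : (0 : ℝ) ≤ (r : ℝ) ^ 6)] at this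
    have h3 : (s0 : ℝ) ^ 6 ≤ (r : ℝ) ^ 6 := pow_le_pow_left₀ hsR.le hrs 6
    have h4 : (s0 : ℝ) ^ 6 * |(W.c₆ : ℝ)| ≤ (s0 : ℝ) ^ 6 * (864 * |(b1 : ℝ)|) := by
      calc (s0 : ℝ) ^ 6 * |(W.c₆ : ℝ)| ≤ (r : ℝ) ^ 6 * |(W.c₆ : ℝ)| :=
            mul_le_mul_of_nonneg_right h3 (abs_nonneg _)
        _ = (s0 : ℝ) ^ 6 * (864 * |(b1 : ℝ)|) := by rw [← h2]; ring
    exact le_of_mul_le_mul_left h4 (by positivity)

/-- the main theorem -/
theorem Fam.main {n : ℕ} {a b g : ℤ[X]} (h : Fam n a b g) (T : Finset ℕ) (ε : ℝ) (hε : 0 < ε) :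
    ∃ C : ℝ, ∀ W : WeierstrassCurve ℤ, GMin W →
      ∀ (s t : ℤ) (u : ℚ), IsCoprime s t → (W.c₄ : ℚ) = u ^ 2 * (fv (2 * n) a s t : ℤ) →
      (W.c₆ : ℚ) = u ^ 3 * (fv (3 * n) b s t : ℤ) →
      max (|(W.c₄ : ℝ)| ^ 3) ((W.c₆ : ℝ) ^ 2) ≤
        C * ((condW W : ℝ) * (excess T (fv g.natDegree g s t).natAbs : ℝ)) ^
          (3 + 3 * (n : ℝ) / ((g.natDegree : ℝ) - 2) + ε) := by
  classical
  have hdav := h.dav
  have hn := h.hn
  have hdavR : (n : ℝ) ≤ (g.natDegree : ℝ) - 2 := by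
    have : ((n + 2 : ℕ) : ℝ) ≤ g.natDegree := by exact_mod_cast hdav
    push_cast at this
    linarith
  have hn1 : (1 : ℝ) ≤ n := by exact_mod_cast hn
  set γ2 : ℝ := (g.natDegree : ℝ) - 2 with hγ2
  have hγpos : 0 < γ2 := by linarith
  set lam : ℝ := (n : ℝ) / γ2 with hlam
  have hlam0 : 0 < lam := by positivity
  have hlam1 : lam ≤ 1 := (div_le_one hγpos).mpr hdavR
  set δ : ℝ := ε / 12 with hδ
  have hδ0 : 0 < δ := by positivity
  have hε' : 0 < γ2 - n / (lam + δ) := by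
    have h1 : (n : ℝ) / (lam + δ) < n / lam := by
      apply div_lt_div_of_pos_left (by linarith) hlam0 (by linarith)
    have h2 : (n : ℝ) / lam = γ2 := by
      rw [hlam]; field_simp
    linarith
  obtain ⟨m1, m2, hm1, hm2, hdat⟩ := h.dat
  have hg0 : g ≠ 0 := by
    rintro rfl
    simp at hdav
  have hlc : g.leadingCoeff ≠ 0 := leadingCoeff_ne_zero.mpr hg0
  set S : Finset ℕ := T.filter Nat.Prime ∪ {2, 3} ∪ g.leadingCoeff.natAbs.primeFactors ∪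
    m1.natAbs.primeFactors ∪ m2.natAbs.primeFactors with hS
  have hSp : ∀ p ∈ S, p.Prime := by
    intro p hp
    simp only [hS, mem_union, mem_filter, mem_insert, mem_singleton] at hp
    rcases hp with (((hp | hp) | hp) | hp) | hp
    · exact hp.2
    · rcases hp with rfl | rfl
      · exact Nat.prime_two
      · exact Nat.prime_three
    · exact Nat.prime_of_mem_primeFactors hp
    · exact Nat.prime_of_mem_primeFactors hp
    · exact Nat.prime_of_mem_primeFactors hp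
  have h2S : 2 ∈ S := by simp [hS]
  have h3S : 3 ∈ S := by simp [hS]
  have hBad : BadS g.leadingCoeff m1 m2 S := by
    refine ⟨h2S, h3S, ?_, ?_, ?_⟩
    · intro p hp; simp only [hS, mem_union]; tauto
    · intro p hp; simp only [hS, mem_union]; tauto
    · intro p hp; simp only [hS, mem_union]; tauto
  have hTS : ∀ p ∈ T, p.Prime → p ∈ S := by
    intro p hp hpp
    simp only [hS, mem_union, mem_filter]
    tauto
  obtain ⟨c, hc, hrid⟩ := rid_form' g h.hsq (by omega) S hSp (γ2 - n / (lam + δ)) hε'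
  set cA : ℝ := ∑ i ∈ range (2 * n + 1), |(a.coeff i : ℝ)| with hcA
  set cB : ℝ := ∑ i ∈ range (3 * n + 1), |(b.coeff i : ℝ)| with hcB
  have hcA0 : 0 ≤ cA := sum_nonneg fun _ _ => abs_nonneg _
  have hcB0 : 0 ≤ cB := sum_nonneg fun _ _ => abs_nonneg _
  set κ : ℝ := 6 * c ^ (-(lam + δ)) with hκ
  have hκ0 : 0 < κ := by positivity
  refine ⟨((48 * 27 * cA) ^ 3 + (864 * 54 * cB) ^ 2) * κ ^ 6, fun W hW s t u hst hc4 hc6 => ?_⟩
  obtain ⟨a1, b1, N, Q, hd, hcond, h4, h6⟩ := hdat W hW s t u hst hc4 hc6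
  set A := fv (2 * n) a s t with hA
  set B := fv (3 * n) b s t with hB
  set G := fv g.natDegree g s t with hG
  set M : ℝ := max |(s : ℝ)| |(t : ℝ)| with hM
  have hM1 : 1 ≤ M := by
    rcases eq_or_ne t 0 with ht | ht
    · have hs : IsUnit s := by rw [ht] at hst; exact isCoprime_zero_right.mp hst
      have : |(s : ℝ)| = 1 := by
        rcases Int.isUnit_iff.mp hs with h1 | h1 <;> simp [h1]
      rw [hM, this]
      exact le_max_left _ _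
    · have : (1 : ℝ) ≤ |(t : ℝ)| := by
        have := Int.one_le_abs ht
        exact_mod_cast this
      exact this.trans (le_max_right _ _)
  have hM0 : 0 < M := by linarith
  have hG0 : G ≠ 0 := hd.hG
  -- Ridout
  have hr1 := hrid s t hst hG0
  rw [norm_gp S hSp G hG0, gp_eq] at hr1
  have hexp : (g.natDegree : ℝ) - 2 - (γ2 - n / (lam + δ)) = n / (lam + δ) := by
    rw [hγ2]; ring
  rw [hexp, ← hM] at hr1
  -- the factors
  set R1 : ℕ := ∏ p ∈ (G.natAbs.primeFactors \ S).filter (fun p : ℕ => (p : ℤ) ∣ D a1 b1), p with hR1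
  set P1 : ℕ := ∏ p ∈ (G.natAbs.primeFactors \ S).filter (fun p : ℕ => ¬ (p : ℤ) ∣ D a1 b1), p with hP1
  set X1 : ℕ := excess S G.natAbs with hX1
  have hsplit : (∏ p ∈ G.natAbs.primeFactors \ S, p) = R1 * P1 := by
    rw [hR1, hP1, prod_filter_mul_prod_filter_not]
  rw [hsplit] at hr1
  push_cast at hr1
  obtain ⟨hPQ, hPX⟩ := hd.piQ hlc hm1 hm2 hBad
  have hNR := hd.NR h2S h3S hlam0.le hlam1
  have hRc := hd.Rcond h2S h3S
  have hprime : ∀ p ∈ G.natAbs.primeFactors \ S, 1 ≤ p := fun p hp =>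
    (Nat.prime_of_mem_primeFactors (mem_sdiff.mp hp).1).one_le
  have hR11 : 1 ≤ R1 := Nat.one_le_iff_ne_zero.mpr (prod_ne_zero_iff.mpr fun p hp => by
    have := hprime p (mem_filter.mp hp).1; omega)
  have hP11 : 1 ≤ P1 := Nat.one_le_iff_ne_zero.mpr (prod_ne_zero_iff.mpr fun p hp => by
    have := hprime p (mem_filter.mp hp).1; omega)
  have hX11 : 1 ≤ X1 := excess_pos _ _
  have hK1 : 1 ≤ condS a1 b1 := hR11.trans hRc
  have hR1R : (1 : ℝ) ≤ R1 := by exact_mod_cast hR11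
  have hP1R : (1 : ℝ) ≤ P1 := by exact_mod_cast hP11
  have hX1R : (1 : ℝ) ≤ X1 := by exact_mod_cast hX11
  have hK1R : (1 : ℝ) ≤ condS a1 b1 := by exact_mod_cast hK1
  have hfin := fin_real (n := n) (K := condS a1 b1) (X := X1) (P := P1) (R := R1)
    (Nn := (N.natAbs : ℝ)) (c := c) (M := M) (lam := lam) (δ := δ) hK1R hX1R hP1R hR1R
    (Nat.cast_nonneg _) hc hM1 hlam0.le hlam1 hδ0 hNR (by exact_mod_cast hRc)
    (by exact_mod_cast hPX) hr1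
  -- `V`
  have hQ0 : (0 : ℝ) < Q := by exact_mod_cast hd.hQ
  set V : ℝ := (N.natAbs : ℝ) / Q * M ^ n with hV
  have hV0 : 0 ≤ V := by positivity
  have hPQR : (P1 : ℝ) ≤ Q := by exact_mod_cast Nat.le_of_dvd hd.hQ hPQ
  have hVle : V ≤ κ * ((condS a1 b1 : ℝ) * X1) ^ ((1 + lam) / 2 + 2 * δ) := by
    refine le_trans ?_ hfin
    rw [hV]
    refine mul_le_mul_of_nonneg_right ?_ (by positivity)
    exact div_le_div_of_nonneg_left (Nat.cast_nonneg _) (by linarith) hPQR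
  -- `E`
  set E : ℝ := (condW W : ℝ) * (excess T G.natAbs : ℝ) with hE
  have hKX : (condS a1 b1 : ℝ) * X1 ≤ E := by
    rw [hE]
    have e1 : (condS a1 b1 : ℝ) ≤ condW W := by exact_mod_cast hcond
    have e2 : (X1 : ℝ) ≤ (excess T G.natAbs : ℝ) := by
      exact_mod_cast excess_mono hTS G.natAbs
    exact mul_le_mul e1 e2 (by positivity) (by positivity)
  have hKX1 : 1 ≤ (condS a1 b1 : ℝ) * X1 := by nlinarith
  have hE1 : 1 ≤ E := hKX1.trans hKX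
  have hV6 : V ^ 6 ≤ κ ^ 6 * E ^ (3 + 3 * (n : ℝ) / γ2 + ε) := by
    have h1 : V ≤ κ * E ^ ((1 + lam) / 2 + 2 * δ) := by
      refine hVle.trans (mul_le_mul_of_nonneg_left ?_ hκ0.le)
      exact Real.rpow_le_rpow (by positivity) hKX (by positivity)
    calc V ^ 6 ≤ (κ * E ^ ((1 + lam) / 2 + 2 * δ)) ^ 6 := pow_le_pow_left₀ hV0 h1 6
      _ = κ ^ 6 * E ^ (3 + 3 * (n : ℝ) / γ2 + ε) := by
          rw [mul_pow, ← Real.rpow_natCast (E ^ ((1 + lam) / 2 + 2 * δ)) 6,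
            ← Real.rpow_mul (by linarith)]
          congr 2
          rw [hlam, hδ]
          push_cast
          ring
  -- `a1`, `b1`
  have hNabs : (N.natAbs : ℝ) = |(N : ℝ)| := by rw [Nat.cast_natAbs, Int.cast_abs]
  have hAle : |(A : ℝ)| ≤ cA * M ^ (2 * n) := fv_le (2 * n) a s t
  have hBle : |(B : ℝ)| ≤ cB * M ^ (3 * n) := fv_le (3 * n) b s t
  have ha1 : |(a1 : ℝ)| ≤ 27 * cA * V ^ 2 := by
    have h1 : (a1 : ℝ) * (Q : ℝ) ^ 2 = 27 * (N : ℝ) ^ 2 * A := by exact_mod_cast hd.ea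
    have h2 : |(a1 : ℝ)| * (Q : ℝ) ^ 2 = 27 * |(N : ℝ)| ^ 2 * |(A : ℝ)| := by
      have := congrArg abs h1
      rwa [abs_mul, abs_mul, abs_mul, abs_pow, abs_pow, abs_of_pos hQ0,
        abs_of_pos (by norm_num : (0 : ℝ) < 27)] at this
    have h3 : |(a1 : ℝ)| = 27 * (|(N : ℝ)| / Q) ^ 2 * |(A : ℝ)| := by
      rw [div_pow]
      field_simp
      linarith
    rw [h3, hV, hNabs]
    calc 27 * (|(N : ℝ)| / Q) ^ 2 * |(A : ℝ)| ≤ 27 * (|(N : ℝ)| / Q) ^ 2 * (cA * M ^ (2 * n)) := by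
          gcongr
      _ = _ := by rw [mul_pow, ← pow_mul, mul_comm n 2]; ring
  have hb1 : |(b1 : ℝ)| ≤ 54 * cB * V ^ 3 := by
    have h1 : (b1 : ℝ) * (Q : ℝ) ^ 3 = 54 * (N : ℝ) ^ 3 * B := by exact_mod_cast hd.eb
    have h2 : |(b1 : ℝ)| * (Q : ℝ) ^ 3 = 54 * |(N : ℝ)| ^ 3 * |(B : ℝ)| := by
      have := congrArg abs h1
      rwa [abs_mul, abs_mul, abs_mul, abs_pow, abs_pow, abs_of_pos hQ0,
        abs_of_pos (by norm_num : (0 : ℝ) < 54)] at this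
    have h3 : |(b1 : ℝ)| = 54 * (|(N : ℝ)| / Q) ^ 3 * |(B : ℝ)| := by
      rw [div_pow]
      field_simp
      linarith
    rw [h3, hV, hNabs]
    calc 54 * (|(N : ℝ)| / Q) ^ 3 * |(B : ℝ)| ≤ 54 * (|(N : ℝ)| / Q) ^ 3 * (cB * M ^ (3 * n)) := by
          gcongr
      _ = _ := by rw [mul_pow, ← pow_mul, mul_comm n 3]; ring
  have hEp : 0 < E ^ (3 + 3 * (n : ℝ) / γ2 + ε) := Real.rpow_pos_of_pos (by linarith) _
  have hc4le : |(W.c₄ : ℝ)| ^ 3 ≤ (48 * 27 * cA) ^ 3 * V ^ 6 := by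
    have h1 : |(W.c₄ : ℝ)| ≤ (48 * 27 * cA) * V ^ 2 := by linarith
    calc |(W.c₄ : ℝ)| ^ 3 ≤ ((48 * 27 * cA) * V ^ 2) ^ 3 := pow_le_pow_left₀ (abs_nonneg _) h1 3
      _ = _ := by ring
  have hc6le : (W.c₆ : ℝ) ^ 2 ≤ (864 * 54 * cB) ^ 2 * V ^ 6 := by
    have h1 : |(W.c₆ : ℝ)| ≤ (864 * 54 * cB) * V ^ 3 := by linarith
    rw [← sq_abs]
    calc |(W.c₆ : ℝ)| ^ 2 ≤ ((864 * 54 * cB) * V ^ 3) ^ 2 := pow_le_pow_left₀ (abs_nonneg _) h1 2
      _ = _ := by ring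
  have hfin2 : ∀ z x' y' : ℝ, 0 ≤ x' → 0 ≤ y' → z ≤ x' * V ^ 6 →
      z ≤ ((x' + y') * κ ^ 6) * E ^ (3 + 3 * (n : ℝ) / γ2 + ε) := by
    intro z x' y' hx' hy' hz
    calc z ≤ x' * V ^ 6 := hz
      _ ≤ x' * (κ ^ 6 * E ^ (3 + 3 * (n : ℝ) / γ2 + ε)) := mul_le_mul_of_nonneg_left hV6 hx'
      _ ≤ (x' + y') * (κ ^ 6 * E ^ (3 + 3 * (n : ℝ) / γ2 + ε)) :=
          mul_le_mul_of_nonneg_right (by linarith) (by positivity)
      _ = _ := by ring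
  apply max_le
  · exact hfin2 _ _ _ (by positivity) (by positivity) hc4le
  · rw [add_comm ((48 * 27 * cA) ^ 3)]
    exact hfin2 _ _ _ (by positivity) (by positivity) hc6le

end Pool.Agent.Y670.RD
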