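import Mathlib

/-!
# Davenport's inequality with common zeros, and a Bezout relation

`D = a ^ 3 - b ^ 2` of degree `6 n`, `deg a ≤ 2 n`, `deg b ≤ 3 n`, no irreducible `π` with
`π ^ 2 ∣ a` and `π ^ 3 ∣ b`; then the radical of `D` has degree at least `n + 2`.
-/

set_option autoImplicit false

namespace Pool.Agent.Y670.RD

open Polynomial

theorem dvd_of_pow {R : Type*} [CommRing R] [IsDomain R] [UniqueFactorizationMonoid R] {a b : R}
    (ha : a ≠ 0) (h : ∀ π : R, Irreducible π → ∀ k : ℕ, π ^ k ∣ a → π ^ k ∣ b) : a ∣ b := by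
  rw [UniqueFactorizationMonoid.dvd_iff_emultiplicity_le ha]
  intro p hp
  rw [emultiplicity_le_emultiplicity_iff]
  exact fun n => h p hp.irreducible n

/-- the Wronskian of `a ^ 3` and `b ^ 2` up to a factor -/
noncomputable def wr (a b : ℚ[X]) : ℚ[X] := 3 * derivative a * b - 2 * a * derivative b

theorem wr1 (a b : ℚ[X]) : a * derivative (a ^ 3 - b ^ 2) - 3 * derivative a * (a ^ 3 - b ^ 2) =
    b * wr a b := by
  unfold wr
  simp only [derivative_sub, derivative_pow]
  push_cast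
  simp only [map_ofNat]
  ring

theorem wr2 (a b : ℚ[X]) : b * derivative (a ^ 3 - b ^ 2) - 2 * derivative b * (a ^ 3 - b ^ 2) =
    a ^ 2 * wr a b := by
  unfold wr
  simp only [derivative_sub, derivative_pow]
  push_cast
  simp only [map_ofNat]
  ring

theorem wr_deg (n : ℕ) (hn : 1 ≤ n) (a b : ℚ[X]) (ha : a.natDegree ≤ 2 * n)
    (hb : b.natDegree ≤ 3 * n) : (wr a b).natDegree ≤ 5 * n - 2 := by
  have ha' : (derivative a).natDegree ≤ 2 * n - 1 :=
    (natDegree_derivative_le a).trans (by omega)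
  have hb' : (derivative b).natDegree ≤ 3 * n - 1 :=
    (natDegree_derivative_le b).trans (by omega)
  have h1 : (derivative a * b).natDegree ≤ 5 * n - 1 := natDegree_mul_le.trans (by omega)
  have h2 : (a * derivative b).natDegree ≤ 5 * n - 1 := natDegree_mul_le.trans (by omega)
  have e1 : (derivative a * b).coeff (5 * n - 1) = (2 * n) * a.coeff (2 * n) * b.coeff (3 * n) := by
    have : 5 * n - 1 = (2 * n - 1) + 3 * n := by omega
    rw [this, coeff_mul_add_eq_of_natDegree_le ha' hb, coeff_derivative]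
    have h3 : 2 * n - 1 + 1 = 2 * n := by omega
    rw [h3]
    have h4 : (((2 * n - 1 : ℕ) : ℚ) + 1) = 2 * n := by
      have : ((2 * n - 1 : ℕ) : ℚ) + 1 = ((2 * n - 1 + 1 : ℕ) : ℚ) := by push_cast; ring
      rw [this, h3]; push_cast; ring
    rw [h4]
    ring
  have e2 : (a * derivative b).coeff (5 * n - 1) = (3 * n) * a.coeff (2 * n) * b.coeff (3 * n) := by
    have : 5 * n - 1 = 2 * n + (3 * n - 1) := by omega
    rw [this, coeff_mul_add_eq_of_natDegree_le ha hb', coeff_derivative]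
    have h3 : 3 * n - 1 + 1 = 3 * n := by omega
    rw [h3]
    have h4 : (((3 * n - 1 : ℕ) : ℚ) + 1) = 3 * n := by
      have : ((3 * n - 1 : ℕ) : ℚ) + 1 = ((3 * n - 1 + 1 : ℕ) : ℚ) := by push_cast; ring
      rw [this, h3]; push_cast; ring
    rw [h4]
    ring
  have hw : wr a b = C 3 * (derivative a * b) - C 2 * (a * derivative b) := by
    unfold wr
    simp only [map_ofNat]
    ring
  rw [natDegree_le_iff_coeff_eq_zero]
  intro m hm
  rw [hw, coeff_sub, coeff_C_mul, coeff_C_mul]
  rcases Nat.lt_or_ge (5 * n - 1) m with h | h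
  · rw [coeff_eq_zero_of_natDegree_lt (by omega), coeff_eq_zero_of_natDegree_lt (by omega)]
    ring
  · have hm1 : m = 5 * n - 1 := by omega
    rw [hm1, e1, e2]
    ring

/-- if the Wronskian vanishes, `a ^ 3` is a multiple of `D` -/
theorem wr_ne (n : ℕ) (hn : 1 ≤ n) (a b : ℚ[X]) (ha : a.natDegree ≤ 2 * n)
    (hD : (a ^ 3 - b ^ 2).natDegree = 6 * n)
    (hiso : ∀ x y : ℚ, C x * a ^ 3 = C y * b ^ 2 → x = 0 ∧ y = 0) : wr a b ≠ 0 := by
  intro hw
  set D := a ^ 3 - b ^ 2 with hDdef
  have h1 := wr1 a b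
  rw [hw, mul_zero, ← hDdef] at h1
  have hD0 : D ≠ 0 := by
    intro h
    rw [h, natDegree_zero] at hD
    omega
  have hlc : D.coeff (6 * n) ≠ 0 := by
    rw [← hD]; exact leadingCoeff_ne_zero.mpr hD0
  -- the wronskian of `a ^ 3` and `D`
  have h2 : a ^ 3 * derivative D = derivative (a ^ 3) * D := by
    rw [derivative_pow]
    push_cast
    simp only [map_ofNat]
    have : a * derivative D = 3 * derivative a * D := by linear_combination h1
    calc a ^ 3 * derivative D = a ^ 2 * (a * derivative D) := by ring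
      _ = _ := by rw [this]; ring
  set lam : ℚ := (a ^ 3).coeff (6 * n) / D.coeff (6 * n) with hlam
  set q := a ^ 3 - C lam * D with hq
  have hqd : q * derivative D = derivative q * D := by
    have h3 : derivative q = derivative (a ^ 3) - C lam * derivative D := by
      rw [hq]
      rw [derivative_sub (f := a ^ 3) (g := C lam * D), derivative_C_mul]
    rw [h3, hq]
    linear_combination h2
  have ha3 : (a ^ 3).natDegree ≤ 6 * n := natDegree_pow_le.trans (by omega)
  have hqdeg : ∀ m, 6 * n ≤ m → q.coeff m = 0 := by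
    intro m hm
    rw [hq, coeff_sub, coeff_C_mul]
    rcases Nat.lt_or_ge (6 * n) m with h | h
    · rw [coeff_eq_zero_of_natDegree_lt (by omega), coeff_eq_zero_of_natDegree_lt (by omega)]
      ring
    · have : m = 6 * n := by omega
      rw [this, hlam, div_mul_cancel₀ _ hlc, sub_self]
  have hq0 : q = 0 := by
    by_contra hne
    have hlt : q.natDegree < 6 * n := by
      by_contra hcon
      push Not at hcon
      exact leadingCoeff_ne_zero.mpr hne (hqdeg _ hcon)
    set m := q.natDegree with hm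
    have c1 : (q * derivative D).coeff (m + (6 * n - 1)) = q.coeff m * (D.coeff (6 * n) * (6 * n)) := by
      rw [coeff_mul_add_eq_of_natDegree_le le_rfl ((natDegree_derivative_le D).trans (by omega)),
        coeff_derivative]
      have h3 : 6 * n - 1 + 1 = 6 * n := by omega
      rw [h3]
      have h4 : (((6 * n - 1 : ℕ) : ℚ) + 1) = 6 * n := by
        have : ((6 * n - 1 : ℕ) : ℚ) + 1 = ((6 * n - 1 + 1 : ℕ) : ℚ) := by push_cast; ring
        rw [this, h3]; push_cast; ring
      rw [h4]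
    have c2 : (derivative q * D).coeff (m + (6 * n - 1)) = (m : ℚ) * (q.coeff m * D.coeff (6 * n)) := by
      rcases Nat.eq_zero_or_pos m with h0 | h0
      · have hC : derivative q = 0 := by
          rw [eq_C_of_natDegree_eq_zero (by omega : q.natDegree = 0), derivative_C]
        rw [hC, zero_mul, coeff_zero, h0]
        simp
      · have : m + (6 * n - 1) = (m - 1) + 6 * n := by omega
        rw [this, coeff_mul_add_eq_of_natDegree_le ((natDegree_derivative_le q).trans le_rfl) hD.le,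
          coeff_derivative]
        have h3 : m - 1 + 1 = m := by omega
        rw [h3]
        have h4 : (((m - 1 : ℕ) : ℚ) + 1) = m := by
          have : ((m - 1 : ℕ) : ℚ) + 1 = ((m - 1 + 1 : ℕ) : ℚ) := by push_cast; ring
          rw [this, h3]
        rw [h4]
        ring
    rw [hqd, c2] at c1
    have hqm : q.coeff m ≠ 0 := leadingCoeff_ne_zero.mpr hne
    have h5 : (m : ℚ) = 6 * n := by
      have h6 : q.coeff m * D.coeff (6 * n) ≠ 0 := mul_ne_zero hqm hlc
      have h7 : (m : ℚ) * (q.coeff m * D.coeff (6 * n)) = (6 * n) * (q.coeff m * D.coeff (6 * n)) := by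
        rw [c1]; ring
      exact mul_right_cancel₀ h6 h7
    have h8 : m = 6 * n := by exact_mod_cast h5
    omega
  have h3 : a ^ 3 = C lam * D := by
    have := hq0
    rw [hq] at this
    exact sub_eq_zero.mp this
  have h4 : C (1 - lam) * a ^ 3 = C (-lam) * b ^ 2 := by
    rw [C_sub, C_neg, C_1]
    rw [hDdef] at h3
    linear_combination h3
  obtain ⟨h5, h6⟩ := hiso _ _ h4
  linarith

theorem dvd_wr (a b g D0 : ℚ[X]) (hD0 : D0 ≠ 0)
    (hmin : ∀ π : ℚ[X], Irreducible π → ¬ (π ^ 2 ∣ a ∧ π ^ 3 ∣ b))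
    (hgD : a ^ 3 - b ^ 2 = g * D0) (hDg : ∃ k, a ^ 3 - b ^ 2 ∣ g ^ k) : D0 ∣ wr a b := by
  apply dvd_of_pow hD0
  intro π hπ k hk
  rcases Nat.eq_zero_or_pos k with h0 | h0
  · rw [h0, pow_zero]; exact one_dvd _
  have hp : Prime π := hπ.prime
  have hπD0 : π ∣ D0 := (dvd_pow_self π (by omega)).trans hk
  have hπD : π ∣ a ^ 3 - b ^ 2 := by rw [hgD]; exact hπD0.mul_left _
  have hπg : π ∣ g := by
    obtain ⟨m, hm⟩ := hDg
    exact hp.dvd_of_dvd_pow (hπD.trans hm)
  have hD1 : π ^ (k + 1) ∣ a ^ 3 - b ^ 2 := by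
    rw [hgD, pow_succ, mul_comm]
    exact mul_dvd_mul hπg hk
  have hD2 : π ^ k ∣ derivative (a ^ 3 - b ^ 2) := by
    have := pow_sub_one_dvd_derivative_of_pow_dvd hD1
    simpa using this
  have hD3 : π ^ k ∣ a ^ 3 - b ^ 2 := (pow_dvd_pow π (by omega)).trans hD1
  by_cases hb : π ∣ b
  · have ha : π ∣ a := by
      have h1 : π ∣ a ^ 3 := by
        have : a ^ 3 = (a ^ 3 - b ^ 2) + b ^ 2 := by ring
        rw [this]
        exact dvd_add hπD (hb.trans (dvd_pow_self b (by norm_num)))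
      exact hp.dvd_of_dvd_pow h1
    have hstop : ∀ j : ℕ, ¬ π ^ (j + 1) ∣ a ^ 3 - b ^ 2 → k + 1 ≤ j := by
      intro j hj
      by_contra hcon
      push Not at hcon
      exact hj ((pow_dvd_pow π (by omega)).trans hD1)
    obtain ⟨a1, ha1⟩ := ha
    obtain ⟨b1, hb1⟩ := hb
    by_cases hb2 : π ^ 2 ∣ b
    · have hb' : π ∣ derivative b := by
        have := pow_sub_one_dvd_derivative_of_pow_dvd hb2
        simpa using this
      by_cases ha2 : π ^ 2 ∣ a
      · -- type IV
        have ha' : π ∣ derivative a := by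
          have := pow_sub_one_dvd_derivative_of_pow_dvd ha2
          simpa using this
        have hb3 : ¬ π ^ 3 ∣ b := fun h => hmin π hπ ⟨ha2, h⟩
        have hk3 : k + 1 ≤ 4 := by
          apply hstop
          intro h5
          apply hb3
          obtain ⟨b2, hb2'⟩ := hb2
          have h6 : π ^ 5 ∣ b ^ 2 := by
            have : b ^ 2 = a ^ 3 - (a ^ 3 - b ^ 2) := by ring
            rw [this]
            refine dvd_sub ?_ h5
            calc π ^ 5 ∣ π ^ 6 := pow_dvd_pow π (by norm_num)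
              _ = (π ^ 2) ^ 3 := by ring
              _ ∣ a ^ 3 := pow_dvd_pow_of_dvd ha2 3
          rw [hb2'] at h6
          have h7 : π ^ 4 * π ∣ π ^ 4 * b2 ^ 2 := by
            calc π ^ 4 * π = π ^ 5 := by ring
              _ ∣ (π ^ 2 * b2) ^ 2 := h6
              _ = π ^ 4 * b2 ^ 2 := by ring
          have h8 := (mul_dvd_mul_iff_left (pow_ne_zero 4 hp.ne_zero)).mp h7
          have h9 := hp.dvd_of_dvd_pow h8
          rw [hb2']
          calc π ^ 3 = π ^ 2 * π := by ring
            _ ∣ π ^ 2 * b2 := mul_dvd_mul_left _ h9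
        calc π ^ k ∣ π ^ 3 := pow_dvd_pow π (by omega)
          _ ∣ wr a b := by
            unfold wr
            refine dvd_sub ?_ ?_
            · calc π ^ 3 = π * π ^ 2 := by ring
                _ ∣ (3 * derivative a) * b := mul_dvd_mul (ha'.mul_left _) hb2
            · calc π ^ 3 = π ^ 2 * π := by ring
                _ ∣ (2 * a) * derivative b := mul_dvd_mul (ha2.mul_left _) hb'
      · -- type III
        have hk3 : k + 1 ≤ 3 := by
          apply hstop
          intro h5
          apply ha2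
          have h6 : π ^ 4 ∣ a ^ 3 := by
            have : a ^ 3 = (a ^ 3 - b ^ 2) + b ^ 2 := by ring
            rw [this]
            refine dvd_add h5 ?_
            calc π ^ 4 = (π ^ 2) ^ 2 := by ring
              _ ∣ b ^ 2 := pow_dvd_pow_of_dvd hb2 2
          rw [ha1] at h6
          have h7 : π ^ 3 * π ∣ π ^ 3 * a1 ^ 3 := by
            calc π ^ 3 * π = π ^ 4 := by ring
              _ ∣ (π * a1) ^ 3 := h6
              _ = π ^ 3 * a1 ^ 3 := by ring
          have h8 := (mul_dvd_mul_iff_left (pow_ne_zero 3 hp.ne_zero)).mp h7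
          have h9 := hp.dvd_of_dvd_pow h8
          rw [ha1]
          calc π ^ 2 = π * π := by ring
            _ ∣ π * a1 := mul_dvd_mul_left _ h9
        have hπa : π ∣ a := ⟨a1, ha1⟩
        calc π ^ k ∣ π ^ 2 := pow_dvd_pow π (by omega)
          _ ∣ wr a b := by
            unfold wr
            refine dvd_sub (hb2.mul_left _) ?_
            calc π ^ 2 = π * π := by ring
              _ ∣ (2 * a) * derivative b := mul_dvd_mul (hπa.mul_left _) hb'
    · -- type II
      have hk3 : k + 1 ≤ 2 := by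
        apply hstop
        intro h5
        apply hb2
        have h6 : π ^ 3 ∣ b ^ 2 := by
          have : b ^ 2 = a ^ 3 - (a ^ 3 - b ^ 2) := by ring
          rw [this]
          refine dvd_sub ?_ h5
          exact pow_dvd_pow_of_dvd ⟨a1, ha1⟩ 3
        rw [hb1] at h6
        have h7 : π ^ 2 * π ∣ π ^ 2 * b1 ^ 2 := by
          calc π ^ 2 * π = π ^ 3 := by ring
            _ ∣ (π * b1) ^ 2 := h6
            _ = π ^ 2 * b1 ^ 2 := by ring
        have h8 := (mul_dvd_mul_iff_left (pow_ne_zero 2 hp.ne_zero)).mp h7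
        have h9 := hp.dvd_of_dvd_pow h8
        rw [hb1]
        calc π ^ 2 = π * π := by ring
          _ ∣ π * b1 := mul_dvd_mul_left _ h9
      have hπa : π ∣ a := ⟨a1, ha1⟩
      have hπb : π ∣ b := ⟨b1, hb1⟩
      calc π ^ k ∣ π ^ 1 := pow_dvd_pow π (by omega)
        _ = π := pow_one π
        _ ∣ wr a b := by
          unfold wr
          exact dvd_sub (hπb.mul_left _) ((hπa.mul_left 2).mul_right _)
  · have hc : IsCoprime (π ^ k) b := (hπ.coprime_iff_not_dvd.mpr hb).pow_left
    have h1 : π ^ k ∣ b * wr a b := by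
      rw [← wr1]
      exact dvd_sub (hD2.mul_left _) (hD3.mul_left _)
    exact hc.dvd_of_dvd_mul_left h1

/-- Davenport's inequality -/
theorem davenport (n : ℕ) (hn : 1 ≤ n) (a b g : ℚ[X]) (ha : a.natDegree ≤ 2 * n)
    (hb : b.natDegree ≤ 3 * n) (hD : (a ^ 3 - b ^ 2).natDegree = 6 * n)
    (hiso : ∀ x y : ℚ, C x * a ^ 3 = C y * b ^ 2 → x = 0 ∧ y = 0)
    (hmin : ∀ π : ℚ[X], Irreducible π → ¬ (π ^ 2 ∣ a ∧ π ^ 3 ∣ b))
    (hgD : g ∣ a ^ 3 - b ^ 2) (hDg : ∃ k, a ^ 3 - b ^ 2 ∣ g ^ k) : n + 2 ≤ g.natDegree := by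
  have hDne : a ^ 3 - b ^ 2 ≠ 0 := by
    intro h
    rw [h, natDegree_zero] at hD
    omega
  obtain ⟨D0, hD0⟩ := hgD
  have hg0 : g ≠ 0 := by rintro rfl; rw [zero_mul] at hD0; exact hDne hD0
  have hD00 : D0 ≠ 0 := by rintro rfl; rw [mul_zero] at hD0; exact hDne hD0
  have h1 := dvd_wr a b g D0 hD00 hmin hD0 hDg
  have h2 := wr_ne n hn a b ha hD hiso
  have h3 := natDegree_le_of_dvd h1 h2
  have h4 := wr_deg n hn a b ha hb
  have h5 : g.natDegree + D0.natDegree = 6 * n := by
    rw [← natDegree_mul hg0 hD00, ← hD0, hD]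
  omega

/-- the Bezout relation -/
theorem bezout (a b g : ℚ[X]) (hg : Squarefree g)
    (hmin : ∀ π : ℚ[X], Irreducible π → ¬ (π ^ 2 ∣ a ∧ π ^ 3 ∣ b)) :
    ∃ x y w : ℚ[X], g ^ 2 = x * (a * g) + y * b + w * g ^ 3 := by
  have hg0 : g ≠ 0 := hg.ne_zero
  set d1 := EuclideanDomain.gcd b (g ^ 3) with hd1
  set d := EuclideanDomain.gcd (a * g) d1 with hd
  have e1 : d ∣ a * g := EuclideanDomain.gcd_dvd_left _ _
  have e2 : d ∣ d1 := EuclideanDomain.gcd_dvd_right _ _
  have e3 : d1 ∣ b := EuclideanDomain.gcd_dvd_left _ _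
  have e4 : d1 ∣ g ^ 3 := EuclideanDomain.gcd_dvd_right _ _
  have hd0 : d ≠ 0 := by
    intro h
    have h1 := e2.trans e4
    rw [h] at h1
    exact pow_ne_zero 3 hg0 (zero_dvd_iff.mp h1)
  have hdg : d ∣ g ^ 2 := by
    apply dvd_of_pow hd0
    intro π hπ k hk
    have hp : Prime π := hπ.prime
    rcases Nat.eq_zero_or_pos k with h0 | h0
    · rw [h0, pow_zero]; exact one_dvd _
    have hkg : π ^ k ∣ g ^ 3 := hk.trans (e2.trans e4)
    have hπg : π ∣ g := hp.dvd_of_dvd_pow ((dvd_pow_self π (by omega)).trans hkg)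
    obtain ⟨g1, hg1⟩ := hπg
    have hg1' : ¬ π ∣ g1 := by
      intro h
      have h2 : π * π ∣ g := by rw [hg1]; exact mul_dvd_mul_left _ h
      exact hπ.not_isUnit (hg π h2)
    have hk2 : k ≤ 2 := by
      by_contra hcon
      push Not at hcon
      have h3 : π ^ 3 ∣ d := (pow_dvd_pow π hcon).trans hk
      apply hmin π hπ
      refine ⟨?_, h3.trans (e2.trans e3)⟩
      have h4 : π ^ 3 ∣ a * g := h3.trans e1
      rw [hg1] at h4
      have h5 : π * π ^ 2 ∣ π * (a * g1) := by
        calc π * π ^ 2 = π ^ 3 := by ring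
          _ ∣ a * (π * g1) := h4
          _ = π * (a * g1) := by ring
      have h6 := (mul_dvd_mul_iff_left hp.ne_zero).mp h5
      have hc : IsCoprime (π ^ 2) g1 := (hπ.coprime_iff_not_dvd.mpr hg1').pow_left
      exact hc.dvd_of_dvd_mul_right h6
    calc π ^ k ∣ π ^ 2 := pow_dvd_pow π hk2
      _ ∣ g ^ 2 := pow_dvd_pow_of_dvd ⟨g1, hg1⟩ 2
  obtain ⟨e, he⟩ := hdg
  have b1 : d1 = b * EuclideanDomain.gcdA b (g ^ 3) + g ^ 3 * EuclideanDomain.gcdB b (g ^ 3) :=
    EuclideanDomain.gcd_eq_gcd_ab _ _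
  have b2 : d = (a * g) * EuclideanDomain.gcdA (a * g) d1 + d1 * EuclideanDomain.gcdB (a * g) d1 :=
    EuclideanDomain.gcd_eq_gcd_ab _ _
  refine ⟨EuclideanDomain.gcdA (a * g) d1 * e,
    EuclideanDomain.gcdB (a * g) d1 * EuclideanDomain.gcdA b (g ^ 3) * e,
    EuclideanDomain.gcdB (a * g) d1 * EuclideanDomain.gcdB b (g ^ 3) * e, ?_⟩
  calc g ^ 2 = d * e := he
    _ = ((a * g) * EuclideanDomain.gcdA (a * g) d1 + d1 * EuclideanDomain.gcdB (a * g) d1) * e := by
        rw [← b2]
    _ = ((a * g) * EuclideanDomain.gcdA (a * g) d1 +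
          (b * EuclideanDomain.gcdA b (g ^ 3) + g ^ 3 * EuclideanDomain.gcdB b (g ^ 3)) *
            EuclideanDomain.gcdB (a * g) d1) * e := by
        rw [← b1]
    _ = _ := by ring

end Pool.Agent.Y670.RD
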