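import Pool.Agent.Y670.RD.Frm
import Pool.Agent.Y670.RD.Dav

/-!
# Clearing denominators
-/

set_option autoImplicit false

namespace Pool.Agent.Y670.RD

open Polynomial Finset

/-- the inclusion `ℤ[X] → ℚ[X]` -/
noncomputable abbrev toQ (f : ℤ[X]) : ℚ[X] := f.map (Int.castRingHom ℚ)

theorem toQ_inj {f g : ℤ[X]} (h : toQ f = toQ g) : f = g :=
  map_injective _ Int.cast_injective h

theorem clr (P : ℚ[X]) : ∃ (m : ℤ) (Q : ℤ[X]), m ≠ 0 ∧ toQ Q = C (m : ℚ) * P := by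
  obtain ⟨m, hm, h⟩ := IsLocalization.integerNormalization_spec (nonZeroDivisors ℤ) P
  refine ⟨m, IsLocalization.integerNormalization (nonZeroDivisors ℤ) P,
    nonZeroDivisors.ne_zero hm, ?_⟩
  have h1 : toQ (IsLocalization.integerNormalization (nonZeroDivisors ℤ) P) = m • P := h
  rw [h1, zsmul_eq_mul]
  simp

/-- divisibility over `ℚ` -/
theorem clr_dvd {f h : ℤ[X]} (hd : toQ f ∣ toQ h) :
    ∃ (m : ℤ) (q : ℤ[X]), m ≠ 0 ∧ C m * h = f * q := by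
  obtain ⟨P, hP⟩ := hd
  obtain ⟨m, Q, hm, hQ⟩ := clr P
  refine ⟨m, Q, hm, toQ_inj ?_⟩
  unfold toQ at *
  rw [Polynomial.map_mul, Polynomial.map_mul, hP, hQ, map_C]
  simp only [eq_intCast]
  ring

/-- the Bezout relation over `ℤ` -/
theorem bezoutZ (a b g : ℤ[X]) (hg : Squarefree (toQ g))
    (hmin : ∀ π : ℚ[X], Irreducible π → ¬ (π ^ 2 ∣ toQ a ∧ π ^ 3 ∣ toQ b)) :
    ∃ (m : ℤ) (x y w : ℤ[X]), m ≠ 0 ∧ C m * g ^ 2 = x * (a * g) + y * b + w * g ^ 3 := by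
  obtain ⟨x, y, w, h⟩ := bezout (toQ a) (toQ b) (toQ g) hg hmin
  obtain ⟨mx, X, hmx, hX⟩ := clr x
  obtain ⟨my, Y, hmy, hY⟩ := clr y
  obtain ⟨mw, W, hmw, hW⟩ := clr w
  refine ⟨mx * my * mw, C (my * mw) * X, C (mx * mw) * Y, C (mx * my) * W,
    mul_ne_zero (mul_ne_zero hmx hmy) hmw, toQ_inj ?_⟩
  unfold toQ at *
  simp only [C_mul]
  simp only [Polynomial.map_mul, Polynomial.map_add, Polynomial.map_pow, hX, hY, hW]
  have hc : ∀ k : ℤ, Polynomial.map (Int.castRingHom ℚ) (C k) = C (k : ℚ) := fun k => by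
    rw [map_C]; rfl
  rw [hc, hc, hc]
  linear_combination (C (mx : ℚ) * C (my : ℚ) * C (mw : ℚ)) * h

/-- the value of the Bezout relation -/
theorem bez_val {n γ : ℕ} {a b g x y w : ℤ[X]} {m : ℤ} (ha : a.natDegree ≤ 2 * n)
    (hb : b.natDegree ≤ 3 * n) (hg : g.natDegree ≤ γ)
    (h : C m * g ^ 2 = x * (a * g) + y * b + w * g ^ 3) :
    ∃ e : ℕ, ∀ s t : ℤ, t ≠ 0 → ∃ X Y Z : ℤ, m * t ^ e * fv γ g s t ^ 2 =
      X * (fv (2 * n) a s t * fv γ g s t) + Y * fv (3 * n) b s t + Z * fv γ g s t ^ 3 := by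
  set dx := x.natDegree with hdx
  set dy := y.natDegree with hdy
  set dw := w.natDegree with hdw
  refine ⟨dx + dy + dw + 5 * n + γ, fun s t ht =>
    ⟨fv (dx + (dy + dw + 3 * n + 2 * γ)) x s t, fv (dy + (dx + dw + 2 * n + 3 * γ)) y s t,
      fv (dw + (dx + dy + 5 * n)) w s t, ?_⟩⟩
  have ht' : (t : ℚ) ≠ 0 := by exact_mod_cast ht
  have hv := congrArg (fun P => aeval ((s : ℚ) / t) P) h
  simp only [map_mul, map_add, map_pow, aeval_C] at hv
  have key : ((m * t ^ (dx + dy + dw + 5 * n + γ) * fv γ g s t ^ 2 : ℤ) : ℚ) =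
      ((fv (dx + (dy + dw + 3 * n + 2 * γ)) x s t * (fv (2 * n) a s t * fv γ g s t) +
        fv (dy + (dx + dw + 2 * n + 3 * γ)) y s t * fv (3 * n) b s t +
        fv (dw + (dx + dy + 5 * n)) w s t * fv γ g s t ^ 3 : ℤ) : ℚ) := by
    push_cast
    rw [fvq hg ht, fvq ha ht, fvq hb ht, fvq (le_add_right hdx.ge) ht, fvq (le_add_right hdy.ge) ht,
      fvq (le_add_right hdw.ge) ht]
    have hm : (algebraMap ℤ ℚ) m = (m : ℚ) := rfl
    rw [hm] at hv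
    simp only [pow_add, pow_mul]
    linear_combination ((t : ℚ) ^ dx * t ^ dy * t ^ dw * (t ^ 5) ^ n * t ^ γ * (t ^ γ) ^ 2) * hv
  exact_mod_cast key

/-- the value of a product relation -/
theorem prod_val {n γ : ℕ} {f g q : ℤ[X]} {m : ℤ} (hf : f.natDegree ≤ n) (hg : g.natDegree ≤ γ)
    (h : C m * f = g * q) :
    ∃ e : ℕ, ∀ s t : ℤ, t ≠ 0 → ∃ X : ℤ, m * t ^ e * fv n f s t = fv γ g s t * X := by
  set d := q.natDegree with hd
  refine ⟨d + γ, fun s t ht => ⟨fv (d + n) q s t, ?_⟩⟩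
  have ht' : (t : ℚ) ≠ 0 := by exact_mod_cast ht
  have hv := congrArg (fun P => aeval ((s : ℚ) / t) P) h
  simp only [map_mul, aeval_C] at hv
  have key : ((m * t ^ (d + γ) * fv n f s t : ℤ) : ℚ) = ((fv γ g s t * fv (d + n) q s t : ℤ) : ℚ) := by
    push_cast
    rw [fvq hg ht, fvq hf ht, fvq (le_add_right hd.ge) ht]
    have hm : (algebraMap ℤ ℚ) m = (m : ℚ) := rfl
    rw [hm] at hv
    simp only [pow_add]
    linear_combination ((t : ℚ) ^ d * t ^ γ * t ^ n) * hv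
  exact_mod_cast key

end Pool.Agent.Y670.RD
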