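import Mathlib

/-!
# Values of the binary form of a polynomial
-/

set_option autoImplicit false

namespace Pool.Agent.Y670.RD

open Polynomial Finset

/-- the value at `(s, t)` of the binary form of degree `N` attached to `f` -/
noncomputable def fv (N : ℕ) (f : ℤ[X]) (s t : ℤ) : ℤ :=
  ∑ i ∈ range (N + 1), f.coeff i * s ^ i * t ^ (N - i)

theorem fv_eq {K : Type*} [Field K] {N : ℕ} {f : ℤ[X]} (hf : f.natDegree ≤ N)
    {s t : ℤ} (ht : (t : K) ≠ 0) : (fv N f s t : K) = (t : K) ^ N * aeval ((s : K) / t) f := by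
  rw [aeval_eq_sum_range' (n := N + 1) (by omega), mul_sum]
  unfold fv
  push_cast
  refine sum_congr rfl fun i hi => ?_
  have hi' : i ≤ N := by have := mem_range.mp hi; omega
  rw [zsmul_eq_mul, div_pow]
  have h1 : (t : K) ^ N = t ^ (N - i) * t ^ i := by rw [← pow_add]; congr 1; omega
  rw [h1]
  field_simp

theorem fvq {N : ℕ} {f : ℤ[X]} (hf : f.natDegree ≤ N) {s t : ℤ} (ht : t ≠ 0) :
    (fv N f s t : ℚ) = (t : ℚ) ^ N * aeval ((s : ℚ) / t) f :=
  fv_eq hf (by exact_mod_cast ht)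

theorem fv_mod (N : ℕ) (f : ℤ[X]) (s t : ℤ) : t ∣ fv N f s t - f.coeff N * s ^ N := by
  unfold fv
  rw [sum_range_succ, Nat.sub_self, pow_zero, mul_one, add_sub_cancel_right]
  refine dvd_sum fun i hi => ?_
  have hi' : i < N := mem_range.mp hi
  exact (dvd_pow_self t (by omega)).mul_left _

theorem fv_zero (N : ℕ) (f : ℤ[X]) (s : ℤ) : fv N f s 0 = f.coeff N * s ^ N := by
  have h := fv_mod N f s 0
  rw [zero_dvd_iff] at h
  exact sub_eq_zero.mp h

theorem fv_le (N : ℕ) (f : ℤ[X]) (s t : ℤ) :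
    |(fv N f s t : ℝ)| ≤ (∑ i ∈ range (N + 1), |(f.coeff i : ℝ)|) *
      (max |(s : ℝ)| |(t : ℝ)|) ^ N := by
  unfold fv
  push_cast
  refine (abs_sum_le_sum_abs _ _).trans ?_
  rw [sum_mul]
  refine sum_le_sum fun i hi => ?_
  have hi' : i ≤ N := by have := mem_range.mp hi; omega
  rw [abs_mul, abs_mul, abs_pow, abs_pow, mul_assoc]
  refine mul_le_mul_of_nonneg_left ?_ (abs_nonneg _)
  have h1 : (max |(s : ℝ)| |(t : ℝ)|) ^ N =
      (max |(s : ℝ)| |(t : ℝ)|) ^ i * (max |(s : ℝ)| |(t : ℝ)|) ^ (N - i) := by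
    rw [← pow_add]; congr 1; omega
  rw [h1]
  exact mul_le_mul (pow_le_pow_left₀ (abs_nonneg _) (le_max_left _ _) _)
    (pow_le_pow_left₀ (abs_nonneg _) (le_max_right _ _) _) (by positivity) (by positivity)

/-- forms multiply -/
theorem fv_mul {N1 N2 : ℕ} {f g : ℤ[X]} (hf : f.natDegree ≤ N1) (hg : g.natDegree ≤ N2)
    {s t : ℤ} (ht : t ≠ 0) : fv (N1 + N2) (f * g) s t = fv N1 f s t * fv N2 g s t := by
  have h : ((fv (N1 + N2) (f * g) s t : ℤ) : ℚ) = ((fv N1 f s t * fv N2 g s t : ℤ) : ℚ) := by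
    push_cast
    rw [fvq (natDegree_mul_le.trans (by omega)) ht, fvq hf ht, fvq hg ht, map_mul, pow_add]
    ring
  exact_mod_cast h

end Pool.Agent.Y670.RD
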