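import Pool.Agent.Y670.RD.Ari

/-!
# The product bounds
-/

set_option autoImplicit false

namespace Pool.Agent.Y670.RD

open Finset
open Pool.Agent.H925R.Szpiro (D IsMin condS)

theorem fin_real {n : ℕ} {K X P R Nn c M lam δ : ℝ} (hK : 1 ≤ K) (hX : 1 ≤ X) (hP : 1 ≤ P)
    (hR : 1 ≤ R) (hN : 0 ≤ Nn) (hc : 0 < c) (hM : 1 ≤ M) (hlam0 : 0 ≤ lam) (hlam1 : lam ≤ 1)
    (hδ : 0 < δ) (h1 : Nn * R ^ lam ≤ 6 * K ^ ((1 + lam) / 2)) (h2 : R ≤ K) (h3 : P ≤ X)
    (h4 : c * M ^ ((n : ℝ) / (lam + δ)) ≤ R * P * X) :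
    Nn / P * M ^ n ≤ (6 * c ^ (-(lam + δ))) * (K * X) ^ ((1 + lam) / 2 + 2 * δ) := by
  have hK0 : 0 < K := by linarith
  have hX0 : 0 < X := by linarith
  have hP0 : 0 < P := by linarith
  have hR0 : 0 < R := by linarith
  have hM0 : 0 < M := by linarith
  have hθ : 0 < lam + δ := by linarith
  have e1 : M ^ n = (M ^ ((n : ℝ) / (lam + δ))) ^ (lam + δ) := by
    rw [← Real.rpow_mul hM0.le, div_mul_cancel₀ _ hθ.ne', Real.rpow_natCast]
  have e2 : M ^ ((n : ℝ) / (lam + δ)) ≤ (R * P * X) * c⁻¹ := by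
    rw [← div_eq_mul_inv, le_div_iff₀ hc]
    linarith
  have e3 : M ^ n ≤ (R * P * X) ^ (lam + δ) * c ^ (-(lam + δ)) := by
    rw [e1]
    refine (Real.rpow_le_rpow (by positivity) e2 hθ.le).trans (le_of_eq ?_)
    rw [Real.mul_rpow (by positivity) (by positivity), Real.inv_rpow hc.le, Real.rpow_neg hc.le]
  have e4 : (R * P * X) ^ (lam + δ) = R ^ lam * P ^ lam * X ^ lam * (R * P * X) ^ δ := by
    rw [Real.rpow_add (by positivity), Real.mul_rpow (by positivity) hX0.le,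
      Real.mul_rpow hR0.le hP0.le]
  have e5 : P ^ lam / P ≤ 1 := by
    rw [div_le_one hP0]
    calc P ^ lam ≤ P ^ (1 : ℝ) := Real.rpow_le_rpow_of_exponent_le hP hlam1
      _ = P := Real.rpow_one _
  have e6 : X ^ lam ≤ X ^ ((1 + lam) / 2) := Real.rpow_le_rpow_of_exponent_le hX (by linarith)
  have e7 : (R * P * X) ^ δ ≤ (K * X) ^ (2 * δ) := by
    rw [Real.rpow_mul (by positivity)]
    refine Real.rpow_le_rpow (by positivity) ?_ hδ.le
    rw [Real.rpow_two]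
    calc R * P * X ≤ K * X * X := by gcongr
      _ = K * X ^ 2 := by ring
      _ ≤ K ^ 2 * X ^ 2 := by
          have : K ≤ K ^ 2 := by nlinarith
          gcongr
      _ = (K * X) ^ 2 := by ring
  have hcp : 0 < c ^ (-(lam + δ)) := Real.rpow_pos_of_pos hc _
  calc Nn / P * M ^ n ≤ Nn / P * ((R * P * X) ^ (lam + δ) * c ^ (-(lam + δ))) := by gcongr
    _ = c ^ (-(lam + δ)) * (Nn * R ^ lam) * (P ^ lam / P) * X ^ lam * (R * P * X) ^ δ := by
        rw [e4]; ring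
    _ ≤ c ^ (-(lam + δ)) * (6 * K ^ ((1 + lam) / 2)) * 1 * X ^ ((1 + lam) / 2) *
          (K * X) ^ (2 * δ) := by gcongr
    _ = (6 * c ^ (-(lam + δ))) * (K * X) ^ ((1 + lam) / 2 + 2 * δ) := by
        rw [Real.rpow_add (by positivity), Real.mul_rpow (z := (1 + lam) / 2) hK0.le hX0.le]
        ring

variable {a1 b1 A B N G lc m1 m2 : ℤ} {Q : ℕ} {s t : ℤ}

/-- the primes `≥ 5` of bad reduction -/
def bp (a1 b1 : ℤ) : Finset ℕ := (D a1 b1).natAbs.primeFactors.filter (fun p => 5 ≤ p)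

/-- bad primes of the family -/
def BadS (lc m1 m2 : ℤ) (S : Finset ℕ) : Prop :=
  2 ∈ S ∧ 3 ∈ S ∧ lc.natAbs.primeFactors ⊆ S ∧ m1.natAbs.primeFactors ⊆ S ∧
    m2.natAbs.primeFactors ⊆ S

theorem mem_pf {m : ℤ} (hm : m ≠ 0) {p : ℕ} (hp : p.Prime) (h : (p : ℤ) ∣ m) :
    p ∈ m.natAbs.primeFactors := by
  rw [Nat.mem_primeFactors]
  exact ⟨hp, by rwa [← Int.natCast_dvd], Int.natAbs_ne_zero.mpr hm⟩

theorem pf_dvd {m : ℤ} {p : ℕ} (h : p ∈ m.natAbs.primeFactors) : (p : ℤ) ∣ m := by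
  rw [Int.natCast_dvd]
  exact Nat.dvd_of_mem_primeFactors h

theorem five_le {S : Finset ℕ} (h2 : 2 ∈ S) (h3 : 3 ∈ S) {p : ℕ} (hp : p.Prime) (h : p ∉ S) :
    5 ≤ p := by
  by_contra hcon
  push Not at hcon
  have := hp.two_le
  interval_cases p
  · exact h h2
  · exact h h3
  · revert hp; decide

/-- the primes of `G` outside `S` and outside the conductor -/
theorem Dat.piQ (h : Dat a1 b1 A B N G lc m1 m2 Q s t) {S : Finset ℕ} (hlc : lc ≠ 0) (hm1 : m1 ≠ 0)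
    (hm2 : m2 ≠ 0) (hS : BadS lc m1 m2 S) :
    (∏ p ∈ (G.natAbs.primeFactors \ S).filter (fun p : ℕ => ¬ (p : ℤ) ∣ D a1 b1), p) ∣ Q ∧
    (∏ p ∈ (G.natAbs.primeFactors \ S).filter (fun p : ℕ => ¬ (p : ℤ) ∣ D a1 b1), p) ≤
      excess S G.natAbs := by
  obtain ⟨h2, h3, hl, hm1', hm2'⟩ := hS
  have key : ∀ p ∈ (G.natAbs.primeFactors \ S).filter (fun p : ℕ => ¬ (p : ℤ) ∣ D a1 b1),
      p.Prime ∧ p ∣ Q ∧ (p : ℤ) ^ 2 ∣ G := by
    intro p hp
    rw [mem_filter, mem_sdiff] at hp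
    obtain ⟨⟨hpG, hpS⟩, hpD⟩ := hp
    have hpp := Nat.prime_of_mem_primeFactors hpG
    refine ⟨hpp, h.good hpp (five_le h2 h3 hpp hpS) ?_ ?_ ?_ (pf_dvd hpG) hpD⟩
    · exact fun hd => hpS (hl (mem_pf hlc hpp hd))
    · exact fun hd => hpS (hm1' (mem_pf hm1 hpp hd))
    · exact fun hd => hpS (hm2' (mem_pf hm2 hpp hd))
  constructor
  · exact prod_primes_dvd Q (fun p hp => (key p hp).1.prime) (fun p hp => (key p hp).2.1)
  · unfold excess
    refine le_trans (b := ∏ p ∈ (G.natAbs.primeFactors \ S).filter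
      (fun p : ℕ => ¬ (p : ℤ) ∣ D a1 b1), p ^ (G.natAbs.factorization p - 1)) ?_
      (prod_le_prod_of_subset_of_one_le' (filter_subset _ _) fun p hp _ =>
      Nat.one_le_pow _ _ (Nat.prime_of_mem_primeFactors (mem_sdiff.mp hp).1).pos)
    refine prod_le_prod' fun p hp => ?_
    obtain ⟨hpp, -, hpG⟩ := key p hp
    have h4 : p ^ 2 ∣ G.natAbs := by
      rw [← Int.natCast_dvd]
      push_cast
      exact hpG
    have h5 : 2 ≤ G.natAbs.factorization p :=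
      (hpp.pow_dvd_iff_le_factorization (Int.natAbs_ne_zero.mpr h.hG)).mp h4
    calc p = p ^ 1 := (pow_one p).symm
      _ ≤ p ^ (G.natAbs.factorization p - 1) := Nat.pow_le_pow_right hpp.pos (by omega)

/-- the numerator of the twist -/
theorem Dat.N_le (h : Dat a1 b1 A B N G lc m1 m2 Q s t) :
    N.natAbs ≤ 6 * ∏ p ∈ bp a1 b1, (if (p : ℤ) ∣ N then p else 1) := by
  have h1 : ∏ p ∈ N.natAbs.primeFactors, p = N.natAbs := Nat.prod_primeFactors_of_squarefree h.sqf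
  have h2 : (∏ p ∈ N.natAbs.primeFactors.filter (fun p => 5 ≤ p), p) *
      (∏ p ∈ N.natAbs.primeFactors.filter (fun p => ¬ 5 ≤ p), p) = N.natAbs := by
    rw [prod_filter_mul_prod_filter_not, h1]
  have h3 : ∏ p ∈ N.natAbs.primeFactors.filter (fun p => ¬ 5 ≤ p), p ≤ 6 := by
    have : ∏ p ∈ ({2, 3} : Finset ℕ), p = 6 := by decide
    rw [← this]
    refine prod_le_prod_of_subset_of_one_le' ?_ ?_
    · intro p hp
      rw [mem_filter] at hp
      have hpp := Nat.prime_of_mem_primeFactors hp.1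
      have h5 := hp.2
      push Not at h5
      have := hpp.two_le
      interval_cases p
      · decide
      · decide
      · revert hpp; decide
    · intro p hp _
      rw [mem_insert, mem_singleton] at hp
      omega
  have h4 : ∏ p ∈ N.natAbs.primeFactors.filter (fun p => 5 ≤ p), p ≤
      ∏ p ∈ bp a1 b1, (if (p : ℤ) ∣ N then p else 1) := by
    rw [← prod_filter]
    refine prod_le_prod_of_subset_of_one_le' ?_ ?_
    · intro p hp
      rw [mem_filter] at hp ⊢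
      have hpp := Nat.prime_of_mem_primeFactors hp.1
      have hd := pf_dvd hp.1
      refine ⟨?_, hd⟩
      unfold bp
      rw [mem_filter]
      exact ⟨mem_pf h.hmin.1 hpp (h.addN hd).2, hp.2⟩
    · intro p hp _
      rw [mem_filter] at hp
      unfold bp at hp
      rw [mem_filter] at hp
      exact (Nat.prime_of_mem_primeFactors hp.1.1).one_le
  rw [← h2, mul_comm]
  exact Nat.mul_le_mul h3 h4

theorem R1_eq (hmin : IsMin a1 b1) {S : Finset ℕ} (h2 : 2 ∈ S) (h3 : 3 ∈ S) (m : ℕ) :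
    (∏ p ∈ (m.primeFactors \ S).filter (fun p : ℕ => (p : ℤ) ∣ D a1 b1), p) =
      ∏ p ∈ bp a1 b1, (if p ∈ m.primeFactors \ S then p else 1) := by
  rw [← prod_filter]
  congr 1
  ext p
  rw [mem_filter, mem_filter]
  unfold bp
  rw [mem_filter]
  constructor
  · rintro ⟨h4, h5⟩
    have h6 := mem_sdiff.mp h4
    have hpp := Nat.prime_of_mem_primeFactors h6.1
    exact ⟨⟨mem_pf hmin.1 hpp h5, five_le h2 h3 hpp h6.2⟩, h4⟩
  · rintro ⟨⟨h4, -⟩, h5⟩
    exact ⟨h5, pf_dvd h4⟩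

theorem Dat.NR (h : Dat a1 b1 A B N G lc m1 m2 Q s t) {S : Finset ℕ} (h2 : 2 ∈ S) (h3 : 3 ∈ S)
    {lam : ℝ} (hlam0 : 0 ≤ lam) (hlam1 : lam ≤ 1) :
    (N.natAbs : ℝ) * ((∏ p ∈ (G.natAbs.primeFactors \ S).filter
      (fun p : ℕ => (p : ℤ) ∣ D a1 b1), p : ℕ) : ℝ) ^ lam ≤
      6 * (condS a1 b1 : ℝ) ^ ((1 + lam) / 2) := by
  rw [R1_eq h.hmin h2 h3]
  have hN : (N.natAbs : ℝ) ≤ 6 * ∏ p ∈ bp a1 b1, (((if (p : ℤ) ∣ N then p else 1 : ℕ)) : ℝ) := by
    exact_mod_cast h.N_le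
  have hcond : (condS a1 b1 : ℝ) = ∏ p ∈ bp a1 b1, (((if (p : ℤ) ∣ a1 then p ^ 2 else p : ℕ)) : ℝ) := by
    unfold condS bp
    rw [Nat.cast_prod]
  have hy : ((∏ p ∈ bp a1 b1, (if p ∈ G.natAbs.primeFactors \ S then p else 1) : ℕ) : ℝ) ^ lam =
      ∏ p ∈ bp a1 b1, (((if p ∈ G.natAbs.primeFactors \ S then p else 1 : ℕ)) : ℝ) ^ lam := by
    rw [Nat.cast_prod, Real.finsetProd_rpow _ _ fun i _ => Nat.cast_nonneg _]
  rw [hy, hcond, ← Real.finsetProd_rpow _ _ fun i _ => Nat.cast_nonneg _]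
  refine (mul_le_mul_of_nonneg_right hN (prod_nonneg fun i _ => Real.rpow_nonneg
    (Nat.cast_nonneg _) _)).trans ?_
  rw [mul_assoc]
  refine mul_le_mul_of_nonneg_left ?_ (by norm_num)
  rw [← prod_mul_distrib]
  refine prod_le_prod (fun i _ => mul_nonneg (Nat.cast_nonneg _) (Real.rpow_nonneg
    (Nat.cast_nonneg _) _)) fun p hp => ?_
  unfold bp at hp
  rw [mem_filter] at hp
  have hpp := Nat.prime_of_mem_primeFactors hp.1
  have hp1 : (1 : ℝ) ≤ p := by exact_mod_cast hpp.one_le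
  have hp0 : (0 : ℝ) < p := by linarith
  have hy1 : (((if p ∈ G.natAbs.primeFactors \ S then p else 1 : ℕ)) : ℝ) ^ lam ≤ (p : ℝ) ^ lam := by
    refine Real.rpow_le_rpow (Nat.cast_nonneg _) ?_ hlam0
    split_ifs
    · exact le_rfl
    · exact_mod_cast hp1
  by_cases hd : (p : ℤ) ∣ N
  · rw [if_pos hd, if_pos (h.addN hd).1]
    calc (p : ℝ) * _ ≤ p * (p : ℝ) ^ lam := mul_le_mul_of_nonneg_left hy1 hp0.le
      _ = (p : ℝ) ^ (1 + lam) := by rw [Real.rpow_add hp0, Real.rpow_one]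
      _ = (((p ^ 2 : ℕ)) : ℝ) ^ ((1 + lam) / 2) := by
          push_cast
          rw [← Real.rpow_natCast (p : ℝ) 2, ← Real.rpow_mul hp0.le]
          congr 1
          push_cast
          ring
  · rw [if_neg hd, Nat.cast_one, one_mul]
    refine hy1.trans ?_
    have h4 : (p : ℝ) ^ lam ≤ (p : ℝ) ^ ((1 + lam) / 2) :=
      Real.rpow_le_rpow_of_exponent_le hp1 (by linarith)
    refine h4.trans (Real.rpow_le_rpow hp0.le ?_ (by linarith))
    split_ifs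
    · push_cast; nlinarith
    · exact le_rfl

theorem Dat.Rcond (h : Dat a1 b1 A B N G lc m1 m2 Q s t) {S : Finset ℕ} (h2 : 2 ∈ S) (h3 : 3 ∈ S) :
    (∏ p ∈ (G.natAbs.primeFactors \ S).filter (fun p : ℕ => (p : ℤ) ∣ D a1 b1), p) ≤
      condS a1 b1 := by
  rw [R1_eq h.hmin h2 h3]
  unfold condS bp
  refine prod_le_prod' fun p hp => ?_
  rw [mem_filter] at hp
  have hpp := Nat.prime_of_mem_primeFactors hp.1
  have h1 := hpp.one_le
  split_ifs <;> nlinarith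

end Pool.Agent.Y670.RD
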